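import Pool.Agent.Helper43_Frey.Ball

/-!
# The uniform count of small elements in orders
-/

set_option linter.unusedSectionVars false

open MeasureTheory Module NumberField
open scoped ENNReal NNReal

noncomputable section

namespace Pool.Agent.Helper43Frey

variable {K : Type*} [Field K] [NumberField K]

/-- A spanning family of small elements of `A`. -/
theorem exists_familyA (A : Subring K) {H : ℝ} (h : W A H = ⊤) :
    ∃ v : Fin (finrank ℚ K) → K, (∀ i, v i ∈ balO A H) ∧
      Submodule.span ℚ (Set.range v) = ⊤ := by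
  classical
  unfold W at h
  obtain ⟨b, hb1, hb2, hb3⟩ := exists_linearIndependent ℚ (balO A H)
  rw [h] at hb2
  let B : Basis b ℚ K := Basis.mk hb3 (by rw [Subtype.range_coe]; exact hb2.ge)
  have : Fintype b := FiniteDimensional.fintypeBasisIndex B
  have hcard : Fintype.card b = finrank ℚ K := (finrank_eq_card_basis B).symm
  let e : Fin (finrank ℚ K) ≃ b := (Fintype.equivFinOfCardEq hcard).symm
  refine ⟨fun i => (e i : K), fun i => hb1 (e i).2, ?_⟩
  have h2 : (Set.range fun i => (e i : K)) = b := by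
    ext x
    constructor
    · rintro ⟨i, rfl⟩
      exact (e i).2
    · intro hx
      exact ⟨e.symm ⟨x, hx⟩, by simp⟩
  rw [h2, hb2]

/-- Small representatives modulo `A`. -/
theorem exists_rep (A : Subring K) {H : ℝ} (h : W A H = ⊤) {x : K} (hx : IsIntegral ℤ x) :
    ∃ y ∈ bal K (finrank ℚ K * H), x - y ∈ A := by
  obtain ⟨v, hv1, hv2⟩ := exists_familyA A h
  have h1 : x ∈ Submodule.span ℚ (Set.range v) := by rw [hv2]; trivial
  rw [Submodule.mem_span_range_iff_exists_fun] at h1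
  obtain ⟨c, hc⟩ := h1
  have hA : (∑ i, (⌊c i⌋ : K) * v i) ∈ A := by
    apply Subring.sum_mem
    intro i _
    exact A.mul_mem (intCast_mem A _) (hv1 i).2
  have hint : IsIntegral ℤ (∑ i, (⌊c i⌋ : K) * v i) := by
    apply IsIntegral.sum
    intro i _
    exact (isIntegral_algebraMap (R := ℤ) (A := K) (x := ⌊c i⌋)).mul (hv1 i).1.1
  refine ⟨x - ∑ i, (⌊c i⌋ : K) * v i, ⟨hx.sub hint, fun φ => ?_⟩, ?_⟩
  · have h2 : x - ∑ i, (⌊c i⌋ : K) * v i = ∑ i, ((Int.fract (c i) : ℚ) : K) * v i := by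
      rw [← hc, ← Finset.sum_sub_distrib]
      apply Finset.sum_congr rfl
      intro i _
      rw [Rat.smul_def, ← sub_mul]
      congr 1
      rw [Int.fract]
      push_cast
      ring
    rw [h2, map_sum]
    refine (norm_sum_le _ _).trans ?_
    calc ∑ i, ‖φ (((Int.fract (c i) : ℚ) : K) * v i)‖ ≤ ∑ _i : Fin (finrank ℚ K), H := by
          apply Finset.sum_le_sum
          intro i _
          rw [map_mul, norm_mul, map_ratCast]
          have h3 : ‖((Int.fract (c i) : ℚ) : ℂ)‖ ≤ 1 := by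
            rw [Complex.norm_ratCast, abs_of_nonneg (by exact_mod_cast Int.fract_nonneg (c i))]
            exact_mod_cast (Int.fract_lt_one (c i)).le
          have h4 := (hv1 i).1.2 φ
          exact (mul_le_of_le_one_left (norm_nonneg _) h3).trans h4
      _ = finrank ℚ K * H := by
          rw [Finset.sum_const, Finset.card_univ, Fintype.card_fin, nsmul_eq_mul]
  · rw [sub_sub_cancel]
    exact hA

/-- The count in an order whose small elements span. -/
theorem card_balO_upper (A : Subring K) {H : ℝ} (hH : 1 ≤ H) (h : W A H = ⊤) (T : Finset K)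
    (hT1 : ∀ x ∈ T, IsIntegral ℤ x) (hT2 : ∀ x ∈ T, ∀ y ∈ T, x - y ∈ A → x = y) :
    (T.card * (balO A H).ncard : ℝ) * Real.sqrt |(discr K : ℝ)| ≤
      (7 * (finrank ℚ K + 3) * ((finrank ℚ K + 1) * H)) ^ finrank ℚ K := by
  classical
  set n := finrank ℚ K with hn
  have hn0 : (0 : ℝ) ≤ n := Nat.cast_nonneg _
  have h1 : ∀ x ∈ T, ∃ y ∈ bal K (n * H), x - y ∈ A := fun x hx => exists_rep A h (hT1 x hx)
  choose! f hf1 hf2 using h1
  have hH' : H ≤ (n + 1) * H := by nlinarith
  have hW : W (intSub K) ((n + 1) * H) = ⊤ := by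
    rw [eq_top_iff, ← h]
    unfold W
    apply Submodule.span_mono
    rw [balO_intSub]
    exact fun x hx => bal_mono hH' hx.1
  have h2 : ((T : Set K) ×ˢ (balO A H)).ncard ≤ (bal K ((n + 1) * H)).ncard := by
    apply Set.ncard_le_ncard_of_injOn (fun p : K × K => f p.1 + p.2) _ _ (bal_finite K _)
    · rintro ⟨t, a⟩ ⟨ht, ha⟩
      have h3 := bal_add (hf1 t ht) ha.1
      have h4 : n * H + H = (n + 1) * H := by ring
      rw [h4] at h3
      exact h3
    · rintro ⟨t, a⟩ ⟨ht, ha⟩ ⟨t', a'⟩ ⟨ht', ha'⟩ hE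
      have hE' : f t + a = f t' + a' := hE
      have h3 : t - t' ∈ A := by
        have h4 : t - t' = (t - f t) - (t' - f t') + (a' - a) := by
          have h5 : f t - f t' = a' - a := by
            rw [sub_eq_sub_iff_add_eq_add, hE', add_comm]
          rw [← h5]
          ring
        rw [h4]
        exact A.add_mem (A.sub_mem (hf2 t ht) (hf2 t' ht')) (A.sub_mem ha'.2 ha.2)
      have h6 := hT2 t ht t' ht' h3
      subst h6
      rw [add_left_cancel hE']
  rw [Set.ncard_prod, Set.ncard_coe_finset] at h2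
  have h3 := card_bal_upper_of_top (K := K) (hH.trans hH') hW
  calc (T.card * (balO A H).ncard : ℝ) * Real.sqrt |(discr K : ℝ)|
      ≤ (bal K ((n + 1) * H)).ncard * Real.sqrt |(discr K : ℝ)| := by
        apply mul_le_mul_of_nonneg_right _ (Real.sqrt_nonneg _)
        exact_mod_cast h2
    _ ≤ _ := h3

/-- B1: the uniform count of the small elements of an order modulo the integers. `T` is a set of
integers pairwise incongruent modulo `A` (so `T.card` is at most the index of `A`); `S` is a set of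
elements of `A` of size at most `H`, pairwise incongruent modulo `ℤ`. -/
theorem order_count (n : ℕ) (hn : 0 < n) : ∃ C : ℝ, 0 < C ∧
    ∀ (K : Type) [Field K] [NumberField K], finrank ℚ K = n → ∀ (A : Subring K) (T : Finset K),
      T.Nonempty → (∀ x ∈ T, IsIntegral ℤ x) → (∀ x ∈ T, ∀ y ∈ T, x - y ∈ A → x = y) →
      ∀ H : ℝ, 1 ≤ H → ∀ S : Finset K, (∀ x ∈ S, x ∈ A ∧ x ∈ bal K H) →
      (∀ x ∈ S, ∀ y ∈ S, (∃ c : ℤ, x - y = c) → x = y) →
      (S.card : ℝ) ≤ C * (H ^ (n - 1) / (T.card * Real.sqrt |(discr K : ℝ)|) +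
        H ^ ((n : ℝ) / 2 - 1)) := by
  classical
  set C1 : ℝ := (7 * (n + 3) * ((n + 1) * 2)) ^ n with hC1
  set C2 : ℝ := 3 ^ (n * (n + 1)) * 2 ^ n with hC2
  have hC1p : 0 < C1 := by positivity
  have hC2p : 0 < C2 := by positivity
  refine ⟨C1 + C2, by positivity, ?_⟩
  intro K _ _ hK A T hTne hT1 hT2 H hH S hS1 hS2
  have hH0 : 0 < H := by linarith
  have hD1 : 1 ≤ |(discr K : ℝ)| := by
    rw [← Int.cast_abs]
    exact_mod_cast Int.one_le_abs (discr_ne_zero K)
  set D := Real.sqrt |(discr K : ℝ)| with hD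
  have hDp : 0 < D := Real.sqrt_pos.2 (by linarith)
  have hTp : (0 : ℝ) < T.card := by exact_mod_cast hTne.card_pos
  -- translation
  have h1 : (S.card : ℝ) * H ≤ (balO A (2 * H)).ncard := by
    have h2 : ((S : Set K) ×ˢ (Finset.range (⌊H⌋₊ + 1) : Set ℕ)).ncard ≤
        (balO A (2 * H)).ncard := by
      apply Set.ncard_le_ncard_of_injOn (fun p : K × ℕ => p.1 + (p.2 : K)) _ _ (balO_finite A _)
      · rintro ⟨x, c⟩ ⟨hx, hc⟩
        rw [Finset.mem_coe, Finset.mem_range] at hc
        refine ⟨⟨(hS1 x hx).2.1.add ?_, fun φ => ?_⟩, A.add_mem (hS1 x hx).1 (natCast_mem A c)⟩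
        · exact isIntegral_natCast c
        · change ‖φ (x + c)‖ ≤ 2 * H
          rw [map_add, map_natCast]
          refine (norm_add_le _ _).trans ?_
          rw [Complex.norm_natCast]
          have h3 : (c : ℝ) ≤ ⌊H⌋₊ := by exact_mod_cast Nat.lt_succ_iff.1 hc
          have h4 : (⌊H⌋₊ : ℝ) ≤ H := Nat.floor_le hH0.le
          have h5 := (hS1 x hx).2.2 φ
          linarith
      · rintro ⟨x, c⟩ ⟨hx, hc⟩ ⟨y, d⟩ ⟨hy, hd⟩ hE
        have hE' : x + (c : K) = y + (d : K) := hE
        have h6 : x = y := by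
          apply hS2 x hx y hy
          refine ⟨(d : ℤ) - c, ?_⟩
          push_cast
          rw [sub_eq_sub_iff_add_eq_add, hE', add_comm]
        subst h6
        have h7 : (c : K) = d := add_left_cancel hE'
        have h8 : c = d := by exact_mod_cast h7
        rw [h8]
    rw [Set.ncard_prod, Set.ncard_coe_finset, Set.ncard_coe_finset, Finset.card_range] at h2
    have h3 : H ≤ ((⌊H⌋₊ + 1 : ℕ) : ℝ) := by
      push_cast
      exact (Nat.lt_floor_add_one H).le
    calc (S.card : ℝ) * H ≤ S.card * ((⌊H⌋₊ + 1 : ℕ) : ℝ) :=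
          mul_le_mul_of_nonneg_left h3 (Nat.cast_nonneg _)
      _ ≤ _ := by exact_mod_cast h2
  have hterm1 : 0 ≤ H ^ (n - 1) / (T.card * D) := by positivity
  have hterm2 : 0 ≤ H ^ ((n : ℝ) / 2 - 1) := by positivity
  by_cases hW : W A (2 * H) = ⊤
  · have h2 := card_balO_upper A (by linarith : 1 ≤ 2 * H) hW T hT1 hT2
    rw [hK] at h2
    have h3 : (S.card : ℝ) * H * (T.card * D) ≤ C1 * H ^ n := by
      calc (S.card : ℝ) * H * (T.card * D) ≤ (balO A (2 * H)).ncard * (T.card * D) :=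
            mul_le_mul_of_nonneg_right h1 (by positivity)
        _ = (T.card * (balO A (2 * H)).ncard : ℝ) * D := by ring
        _ ≤ _ := h2
        _ = C1 * H ^ n := by
            rw [hC1, ← mul_pow]
            congr 1
            ring
    have h4 : H ^ n = H ^ (n - 1) * H := by
      rw [← pow_succ]
      congr 1
      omega
    rw [h4] at h3
    have h5 : (S.card : ℝ) * (T.card * D) ≤ C1 * H ^ (n - 1) := by
      have h6 : (S.card : ℝ) * (T.card * D) * H ≤ C1 * H ^ (n - 1) * H := by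
        calc _ = (S.card : ℝ) * H * (T.card * D) := by ring
          _ ≤ _ := h3
          _ = _ := by ring
      exact le_of_mul_le_mul_right h6 hH0
    calc (S.card : ℝ) ≤ C1 * (H ^ (n - 1) / (T.card * D)) := by
          rw [← mul_div_assoc, le_div_iff₀ (by positivity)]
          exact h5
      _ ≤ (C1 + C2) * (H ^ (n - 1) / (T.card * D) + H ^ ((n : ℝ) / 2 - 1)) := by
          nlinarith [mul_nonneg hC1p.le hterm2, mul_nonneg hC2p.le hterm1,
            mul_nonneg hC2p.le hterm2]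
  · have h2 := card_of_not_span A (by linarith : 1 ≤ 2 * H) hW
    rw [hK] at h2
    have h3 : ((S.card : ℝ) * H) ^ 2 ≤ C2 * H ^ n := by
      calc ((S.card : ℝ) * H) ^ 2 ≤ ((balO A (2 * H)).ncard : ℝ) ^ 2 :=
            pow_le_pow_left₀ (by positivity) h1 2
        _ ≤ _ := h2
        _ = C2 * H ^ n := by rw [mul_pow]; ring
    have h4 : (H ^ ((n : ℝ) / 2 - 1)) ^ 2 * H ^ 2 = H ^ n := by
      rw [← mul_pow, ← Real.rpow_add_one hH0.ne', ← Real.rpow_natCast, ← Real.rpow_mul hH0.le,
        ← Real.rpow_natCast]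
      congr 1
      push_cast
      ring
    have h5 : (S.card : ℝ) ^ 2 ≤ (C2 * H ^ ((n : ℝ) / 2 - 1)) ^ 2 := by
      have hC2one : 1 ≤ C2 := by
        have e1 : (1 : ℝ) ≤ 3 ^ (n * (n + 1)) := one_le_pow₀ (by norm_num)
        have e2 : (1 : ℝ) ≤ 2 ^ n := one_le_pow₀ (by norm_num)
        rw [hC2]
        nlinarith
      have h6 : (S.card : ℝ) ^ 2 * H ^ 2 ≤ (C2 * (H ^ ((n : ℝ) / 2 - 1)) ^ 2) * H ^ 2 := by
        calc _ = ((S.card : ℝ) * H) ^ 2 := by ring
          _ ≤ C2 * H ^ n := h3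
          _ = _ := by rw [← h4]; ring
      have h7 := le_of_mul_le_mul_right h6 (by positivity)
      calc (S.card : ℝ) ^ 2 ≤ C2 * (H ^ ((n : ℝ) / 2 - 1)) ^ 2 := h7
        _ ≤ C2 ^ 2 * (H ^ ((n : ℝ) / 2 - 1)) ^ 2 := by
            apply mul_le_mul_of_nonneg_right _ (by positivity)
            nlinarith
        _ = _ := by ring
    have h8 : (S.card : ℝ) ≤ C2 * H ^ ((n : ℝ) / 2 - 1) :=
      le_of_sq_le_sq h5 (by positivity)
    nlinarith [mul_nonneg hC1p.le hterm2, mul_nonneg hC2p.le hterm1,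
            mul_nonneg hC1p.le hterm1]

/-- ORD: the uniform count of the small elements of a subring. -/
theorem ord (n : ℕ) (hn : 0 < n) : ∃ C : ℝ, 0 < C ∧
    ∀ (K : Type) [Field K] [NumberField K], finrank ℚ K = n → ∀ (A : Subring K) (T : Finset K),
      T.Nonempty → (∀ x ∈ T, IsIntegral ℤ x) → (∀ x ∈ T, ∀ y ∈ T, x - y ∈ A → x = y) →
      ∀ H : ℝ, 1 ≤ H →
      ((balO A H).ncard : ℝ) ≤ C * (H ^ n / T.card + H ^ ((n : ℝ) / 2)) := by
  classical
  set C1 : ℝ := (7 * (n + 3) * (n + 1)) ^ n with hC1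
  set C2 : ℝ := 3 ^ (n * (n + 1)) with hC2
  have hC1p : 0 < C1 := by positivity
  have hC2p : 0 < C2 := by positivity
  refine ⟨C1 + C2, by positivity, ?_⟩
  intro K _ _ hK A T hTne hT1 hT2 H hH
  have hH0 : 0 < H := by linarith
  have hD1 : 1 ≤ |(discr K : ℝ)| := by
    rw [← Int.cast_abs]
    exact_mod_cast Int.one_le_abs (discr_ne_zero K)
  have hD : 1 ≤ Real.sqrt |(discr K : ℝ)| := Real.one_le_sqrt.2 hD1
  have hTp : (0 : ℝ) < T.card := by exact_mod_cast hTne.card_pos
  have hterm1 : 0 ≤ H ^ n / T.card := by positivity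
  have hterm2 : 0 ≤ H ^ ((n : ℝ) / 2) := by positivity
  by_cases hW : W A H = ⊤
  · have h2 := card_balO_upper A hH hW T hT1 hT2
    rw [hK] at h2
    have h3 : (T.card : ℝ) * (balO A H).ncard ≤ C1 * H ^ n := by
      calc (T.card : ℝ) * (balO A H).ncard ≤
            (T.card * (balO A H).ncard : ℝ) * Real.sqrt |(discr K : ℝ)| :=
            le_mul_of_one_le_right (by positivity) hD
        _ ≤ _ := h2
        _ = C1 * H ^ n := by
            rw [hC1, ← mul_pow]
            congr 1
            ring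
    calc ((balO A H).ncard : ℝ) ≤ C1 * (H ^ n / T.card) := by
          rw [← mul_div_assoc, le_div_iff₀ hTp]
          linarith
      _ ≤ (C1 + C2) * (H ^ n / T.card + H ^ ((n : ℝ) / 2)) := by
          nlinarith [mul_nonneg hC1p.le hterm2, mul_nonneg hC2p.le hterm1,
            mul_nonneg hC2p.le hterm2]
  · have h2 := card_of_not_span A hH hW
    rw [hK] at h2
    have h4 : (H ^ ((n : ℝ) / 2)) ^ 2 = H ^ n := by
      rw [← Real.rpow_natCast, ← Real.rpow_mul hH0.le, ← Real.rpow_natCast]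
      congr 1
      push_cast
      ring
    have hC2one : 1 ≤ C2 := one_le_pow₀ (by norm_num)
    have h5 : ((balO A H).ncard : ℝ) ^ 2 ≤ (C2 * H ^ ((n : ℝ) / 2)) ^ 2 := by
      calc ((balO A H).ncard : ℝ) ^ 2 ≤ C2 * H ^ n := h2
        _ ≤ C2 ^ 2 * H ^ n := by
            apply mul_le_mul_of_nonneg_right _ (by positivity)
            nlinarith
        _ = _ := by rw [mul_pow, h4]
    have h8 : ((balO A H).ncard : ℝ) ≤ C2 * H ^ ((n : ℝ) / 2) :=
      le_of_sq_le_sq h5 (by positivity)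
    nlinarith [mul_nonneg hC1p.le hterm2, mul_nonneg hC2p.le hterm1,
            mul_nonneg hC1p.le hterm1]

end Pool.Agent.Helper43Frey
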