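import Pool.Agent.Helper43_THX.SBS
import Pool.Agent.Helper79_FreyD.DefsG

/-!
# The number of algebraic integers with bounded conjugates, full range
-/

set_option linter.unusedSectionVars false

open MeasureTheory Module NumberField
open scoped ENNReal NNReal

noncomputable section

namespace Pool.Agent.Helper43Frey

variable {K : Type*} [Field K] [NumberField K]

theorem exists_family_of_top {H : ℝ} (h : W (intSub K) H = ⊤) :
    ∃ v : Fin (finrank ℚ K) → K, (∀ i, v i ∈ bal K H) ∧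
      Submodule.span ℚ (Set.range v) = ⊤ := by
  classical
  unfold W at h
  rw [balO_intSub] at h
  obtain ⟨b, hb1, hb2, hb3⟩ := exists_linearIndependent ℚ (bal K H)
  rw [h] at hb2
  let B : Basis b ℚ K := Basis.mk hb3 (by rw [Subtype.range_coe]; exact hb2.ge)
  have : Fintype b := FiniteDimensional.fintypeBasisIndex B
  have hcard : Fintype.card b = finrank ℚ K := (finrank_eq_card_basis B).symm
  let e : Fin (finrank ℚ K) ≃ b := (Fintype.equivFinOfCardEq hcard).symm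
  refine ⟨fun i => (e i : K), fun i => hb1 (e i).2, ?_⟩
  have h2 : (Set.range fun i => (e i : K)) = b := by
    ext x
    constructor
    · rintro ⟨i, rfl⟩
      exact (e i).2
    · intro hx
      exact ⟨e.symm ⟨x, hx⟩, by simp⟩
  rw [h2, hb2]

/-- The upper bound when the small elements span. -/
theorem card_bal_upper_of_top {H : ℝ} (hH : 1 ≤ H) (h : W (intSub K) H = ⊤) :
    (bal K H).ncard * Real.sqrt |(discr K : ℝ)| ≤
      (7 * (finrank ℚ K + 3) * H) ^ finrank ℚ K := by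
  classical
  obtain ⟨v, hv1, hv2⟩ := exists_family_of_top h
  set h : ℝ≥0 := ⟨H, by linarith⟩ with hh
  have hcoe : (h : ℝ) = H := rfl
  have hv1' : ∀ i, v i ∈ bal K (h : ℝ) := hv1
  have hh0 : 0 < h := by
    rw [← NNReal.coe_pos, hcoe]
    linarith
  have h1 := minkowski_upper v hv2 hh0 hv1'
  rw [mixedEmbedding.volume_fundamentalDomain_latticeBasis] at h1
  set n := finrank ℚ K with hn
  set r1 := InfinitePlace.nrRealPlaces K
  set r2 := InfinitePlace.nrComplexPlaces K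
  have hr : r1 + 2 * r2 = n := InfinitePlace.card_add_two_mul_card_eq_rank K
  rw [hcoe] at h1
  have h2 : (2 : ℝ≥0∞)⁻¹ ^ r2 * (NNReal.sqrt ‖discr K‖₊ : ℝ≥0∞) =
      (((2 : ℝ≥0)⁻¹ ^ r2 * NNReal.sqrt ‖discr K‖₊ : ℝ≥0) : ℝ≥0∞) := by
    push_cast
    rfl
  rw [h2] at h1
  have h3' : ((bal K H).ncard : ℝ≥0) * ((2 : ℝ≥0)⁻¹ ^ r2 * NNReal.sqrt ‖discr K‖₊) ≤
      mixedEmbedding.convexBodyLTFactor K * ((n + 3 : ℝ≥0) * h) ^ n := by
    exact_mod_cast h1
  have h3 : ((bal K H).ncard : ℝ≥0) * ((2 : ℝ≥0)⁻¹ ^ r2 * NNReal.sqrt ‖discr K‖₊) ≤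
      (2 ^ r1 * NNReal.pi ^ r2) * ((n + 3 : ℝ≥0) * h) ^ n := h3'
  have h4 : ((bal K H).ncard : ℝ) * ((2 : ℝ)⁻¹ ^ r2 * Real.sqrt |(discr K : ℝ)|) ≤
      (2 ^ r1 * Real.pi ^ r2) * ((n + 3 : ℝ) * H) ^ n := by
    have h5 := NNReal.coe_le_coe.2 h3
    push_cast at h5
    rw [Int.norm_eq_abs] at h5
    exact h5
  have h6 : ((bal K H).ncard : ℝ) * Real.sqrt |(discr K : ℝ)| ≤
      2 ^ r2 * ((2 ^ r1 * Real.pi ^ r2) * ((n + 3 : ℝ) * H) ^ n) := by
    have h7 : ((bal K H).ncard : ℝ) * Real.sqrt |(discr K : ℝ)| =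
        2 ^ r2 * (((bal K H).ncard : ℝ) * ((2 : ℝ)⁻¹ ^ r2 * Real.sqrt |(discr K : ℝ)|)) := by
      rw [inv_pow]
      field_simp
    rw [h7]
    exact mul_le_mul_of_nonneg_left h4 (by positivity)
  refine h6.trans ?_
  have h8 : (2 : ℝ) ^ r2 * (2 ^ r1 * Real.pi ^ r2) ≤ 7 ^ n := by
    have h9 : (2 : ℝ) * Real.pi ≤ 7 := by
      have := Real.pi_lt_d2
      linarith
    calc (2 : ℝ) ^ r2 * (2 ^ r1 * Real.pi ^ r2) = 2 ^ r1 * (2 * Real.pi) ^ r2 := by
          rw [mul_pow]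
          ring
      _ ≤ 7 ^ r1 * 7 ^ r2 := by
          apply mul_le_mul (pow_le_pow_left₀ (by norm_num) (by norm_num) _)
            (pow_le_pow_left₀ (by positivity) h9 _) (by positivity) (by positivity)
      _ = 7 ^ (r1 + r2) := (pow_add _ _ _).symm
      _ ≤ 7 ^ n := pow_le_pow_right₀ (by norm_num) (by omega)
  calc (2 : ℝ) ^ r2 * ((2 ^ r1 * Real.pi ^ r2) * ((n + 3 : ℝ) * H) ^ n)
      = (2 : ℝ) ^ r2 * (2 ^ r1 * Real.pi ^ r2) * ((n + 3 : ℝ) * H) ^ n := by ring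
    _ ≤ 7 ^ n * ((n + 3 : ℝ) * H) ^ n :=
        mul_le_mul_of_nonneg_right h8 (by positivity)
    _ = (7 * (n + 3) * H) ^ n := by
        rw [← mul_pow]
        congr 1
        ring

/-- The bound in the full range `|D| ≤ R ^ n`, for all number fields of degree `n`. -/
theorem card_bal_full (n : ℕ) (hn : 0 < n) : ∃ C : ℝ, 0 < C ∧
    ∀ (K : Type) [Field K] [NumberField K], finrank ℚ K = n → ∀ R : ℝ, 1 ≤ R →
      |(discr K : ℝ)| ≤ R ^ n → ((bal K R).ncard : ℝ) * Real.sqrt |(discr K : ℝ)| ≤ C * R ^ n := by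
  set c : ℝ := 4 * 3 ^ (n + 1) + 1 with hc
  have hc1 : 1 ≤ c := by
    have : (0 : ℝ) ≤ 4 * 3 ^ (n + 1) := by positivity
    linarith
  refine ⟨(7 * (n + 3) * c) ^ n, by positivity, ?_⟩
  intro K _ _ hK R hR hD
  have hR0 : 0 < R := by linarith
  have hD1 : 1 ≤ |(discr K : ℝ)| := by
    rw [← Int.cast_abs]
    exact_mod_cast Int.one_le_abs (discr_ne_zero K)
  have h1 : W (intSub K) (c * R) = ⊤ := by
    apply W_eq_top (by nlinarith)
    rw [hK, mul_pow]
    have h2 : (4 : ℝ) ^ n * 3 ^ (n * (n + 1)) = (4 * 3 ^ (n + 1)) ^ n := by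
      rw [mul_pow, ← pow_mul, mul_comm n (n + 1)]
    rw [h2]
    apply mul_lt_mul _ hD (by linarith) (by positivity)
    apply pow_lt_pow_left₀ _ (by positivity) hn.ne'
    rw [hc]
    linarith
  have h2 := card_bal_upper_of_top (K := K) (by nlinarith : 1 ≤ c * R) h1
  rw [hK] at h2
  have h3 : ((bal K R).ncard : ℝ) ≤ (bal K (c * R)).ncard := by
    exact_mod_cast Set.ncard_le_ncard (bal_mono (by nlinarith)) (bal_finite K _)
  calc ((bal K R).ncard : ℝ) * Real.sqrt |(discr K : ℝ)|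
      ≤ (bal K (c * R)).ncard * Real.sqrt |(discr K : ℝ)| :=
        mul_le_mul_of_nonneg_right h3 (Real.sqrt_nonneg _)
    _ ≤ _ := h2
    _ = (7 * (n + 3) * c) ^ n * R ^ n := by rw [← mul_pow]; ring

/-- The interface `Ball`, full range. -/
theorem ball_full (n : ℕ) (hn : 0 < n) : Helper79FreyD.Ball n n := by
  obtain ⟨C, hC, h⟩ := card_bal_full n hn
  refine ⟨C, hC, ?_⟩
  intro K _ _ hK R hR hD
  have hD1 : 1 ≤ |(discr K : ℝ)| := by
    rw [← Int.cast_abs]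
    exact_mod_cast Int.one_le_abs (discr_ne_zero K)
  have h1 : ((discr K).natAbs : ℝ) = |(discr K : ℝ)| := by
    rw [Nat.cast_natAbs, Int.cast_abs]
  rw [h1] at hD ⊢
  rw [Real.rpow_natCast] at hD
  rw [small_ncard_eq, le_div_iff₀ (Real.sqrt_pos.2 (by linarith))]
  exact h K hK R hR hD

end Pool.Agent.Helper43Frey
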