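import Mathlib

/-!
# Counting algebraic integers with bounded conjugates

`bal K R`: the algebraic integers of `K` all of whose conjugates have absolute value at most `R`.
-/

set_option linter.unusedSectionVars false

open MeasureTheory Module NumberField
open scoped ENNReal NNReal

noncomputable section

namespace Pool.Agent.Helper43Frey

/-! ### Two counting lemmas for lattices -/

section abstract

variable {E : Type*} [NormedAddCommGroup E] [MeasurableSpace E] [BorelSpace E]
  {L : AddSubgroup E} [Countable L] {F : Set E} {μ : Measure E} [μ.IsAddHaarMeasure]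

theorem vol_eq (hF : IsAddFundamentalDomain L F μ) (S : Set E) (hS : MeasurableSet S) :
    μ S = ∫⁻ x in F, ∑' g : L, S.indicator (fun _ => (1 : ℝ≥0∞)) ((g : E) + x) ∂μ := by
  rw [← lintegral_indicator_one hS, hF.lintegral_eq_tsum'' (S.indicator 1), lintegral_tsum]
  · rfl
  · intro g
    exact ((measurable_const.indicator hS).comp (measurable_const_add (g : E))).aemeasurable

theorem vol_le (hF : IsAddFundamentalDomain L F μ) (S : Set E) (hS : MeasurableSet S) (N : ℕ)
    (h : ∀ x : E, ∀ A : Finset L, (∀ g ∈ A, (g : E) + x ∈ S) → A.card ≤ N) :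
    μ S ≤ N * μ F := by
  classical
  rw [vol_eq hF S hS, ← setLIntegral_const]
  apply lintegral_mono
  intro x
  change ∑' g : L, S.indicator (fun _ => (1 : ℝ≥0∞)) ((g : E) + x) ≤ (N : ℝ≥0∞)
  rw [ENNReal.tsum_eq_iSup_sum]
  apply iSup_le
  intro A
  have h1 : ∑ g ∈ A, S.indicator (fun _ => (1 : ℝ≥0∞)) ((g : E) + x) =
      ((A.filter (fun g : L => (g : E) + x ∈ S)).card : ℝ≥0∞) := by
    rw [Finset.card_filter, Nat.cast_sum]
    apply Finset.sum_congr rfl
    intro g _
    by_cases hg : (g : E) + x ∈ S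
    · rw [Set.indicator_of_mem hg, if_pos hg, Nat.cast_one]
    · rw [Set.indicator_of_notMem hg, if_neg hg, Nat.cast_zero]
  rw [h1]
  exact_mod_cast h x _ (fun g hg => (Finset.mem_filter.1 hg).2)

theorem le_vol (hF : IsAddFundamentalDomain L F μ) (S : Set E) (hS : MeasurableSet S) (N : ℕ)
    (h : ∀ x : E, ∃ A : Finset L, (∀ g ∈ A, (g : E) + x ∈ S) ∧ N ≤ A.card) :
    N * μ F ≤ μ S := by
  classical
  rw [vol_eq hF S hS, ← setLIntegral_const]
  apply lintegral_mono
  intro x
  change (N : ℝ≥0∞) ≤ ∑' g : L, S.indicator (fun _ => (1 : ℝ≥0∞)) ((g : E) + x)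
  obtain ⟨A, hA, hN⟩ := h x
  have h1 : ∑ g ∈ A, S.indicator (fun _ => (1 : ℝ≥0∞)) ((g : E) + x) = (A.card : ℝ≥0∞) := by
    rw [Finset.card_eq_sum_ones, Nat.cast_sum]
    apply Finset.sum_congr rfl
    intro g hg
    rw [Set.indicator_of_mem (hA g hg), Nat.cast_one]
  calc (N : ℝ≥0∞) ≤ (A.card : ℝ≥0∞) := by exact_mod_cast hN
    _ = ∑ g ∈ A, S.indicator (fun _ => (1 : ℝ≥0∞)) ((g : E) + x) := h1.symm
    _ ≤ _ := ENNReal.sum_le_tsum A

end abstract

/-! ### Algebraic integers with bounded conjugates -/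

variable (K : Type*) [Field K] [NumberField K]

/-- The algebraic integers of `K` all of whose conjugates have absolute value at most `R`. -/
def bal (R : ℝ) : Set K := {x | IsIntegral ℤ x ∧ ∀ φ : K →+* ℂ, ‖φ x‖ ≤ R}

theorem bal_finite (R : ℝ) : (bal K R).Finite := Embeddings.finite_of_norm_le K ℂ R

variable {K}

theorem bal_mono {R S : ℝ} (h : R ≤ S) : bal K R ⊆ bal K S :=
  fun _ hx => ⟨hx.1, fun φ => (hx.2 φ).trans h⟩

theorem bal_sub {R S : ℝ} {x y : K} (hx : x ∈ bal K R) (hy : y ∈ bal K S) :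
    x - y ∈ bal K (R + S) := by
  refine ⟨hx.1.sub hy.1, fun φ => ?_⟩
  rw [map_sub]
  exact (norm_sub_le _ _).trans (add_le_add (hx.2 φ) (hy.2 φ))

theorem bal_add {R S : ℝ} {x y : K} (hx : x ∈ bal K R) (hy : y ∈ bal K S) :
    x + y ∈ bal K (R + S) := by
  refine ⟨hx.1.add hy.1, fun φ => ?_⟩
  rw [map_add]
  exact (norm_add_le _ _).trans (add_le_add (hx.2 φ) (hy.2 φ))

theorem bal_mul {R S : ℝ} (hR : 0 ≤ R) {x y : K} (hx : x ∈ bal K R) (hy : y ∈ bal K S) :
    x * y ∈ bal K (R * S) := by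
  refine ⟨hx.1.mul hy.1, fun φ => ?_⟩
  rw [map_mul, norm_mul]
  exact mul_le_mul (hx.2 φ) (hy.2 φ) (norm_nonneg _) hR

theorem zero_mem_bal {R : ℝ} (hR : 0 ≤ R) : (0 : K) ∈ bal K R :=
  ⟨isIntegral_zero, fun φ => by rw [map_zero, norm_zero]; exact hR⟩

/-- An algebraic integer whose conjugates have absolute value less than `1` is `0`. -/
theorem eq_zero_of_lt_one {x : K} (hx : IsIntegral ℤ x) (h : ∀ φ : K →+* ℂ, ‖φ x‖ < 1) :
    x = 0 := by
  by_contra h0
  obtain ⟨a, rfl⟩ : ∃ a : 𝓞 K, (a : K) = x := ⟨⟨x, hx⟩, rfl⟩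
  have ha : a ≠ 0 := by
    rintro rfl
    exact h0 rfl
  obtain ⟨w⟩ := (inferInstance : Nonempty (InfinitePlace K))
  have hw : ∀ z : InfinitePlace K, z (a : K) < 1 := by
    intro z
    rw [← InfinitePlace.norm_embedding_eq]
    exact h _
  exact absurd (InfinitePlace.one_le_of_lt_one (w := w) ha (fun z _ => hw z)) (not_le.2 (hw w))

theorem mem_bal_iff {R : ℝ} {x : K} :
    x ∈ bal K R ↔ IsIntegral ℤ x ∧ ∀ w : InfinitePlace K, w x ≤ R := by
  refine and_congr_right fun _ => ⟨fun h w => ?_, fun h φ => ?_⟩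
  · rw [← InfinitePlace.norm_embedding_eq]
    exact h _
  · exact h (InfinitePlace.mk φ)

open scoped Classical in
theorem vol_body (R : ℝ≥0) :
    volume (mixedEmbedding.convexBodyLT K (fun _ => R)) =
      (mixedEmbedding.convexBodyLTFactor K : ℝ≥0∞) * (R : ℝ≥0∞) ^ finrank ℚ K := by
  rw [mixedEmbedding.convexBodyLT_volume]
  congr 1
  rw [Finset.prod_pow_eq_pow_sum, InfinitePlace.sum_mult_eq]
  exact ENNReal.coe_pow _ _

/-- The lattice of the integers. -/
def lat (K : Type*) [Field K] [NumberField K] : AddSubgroup (mixedEmbedding.mixedSpace K) :=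
  (Submodule.span ℤ (Set.range (mixedEmbedding.latticeBasis K))).toAddSubgroup

theorem mem_lat {x : mixedEmbedding.mixedSpace K} :
    x ∈ lat K ↔ ∃ a : K, IsIntegral ℤ a ∧ mixedEmbedding K a = x := by
  unfold lat
  rw [Submodule.mem_toAddSubgroup, mixedEmbedding.mem_span_latticeBasis]
  constructor
  · rintro ⟨a, rfl⟩
    exact ⟨a, a.2, rfl⟩
  · rintro ⟨a, ha, rfl⟩
    exact ⟨⟨a, ha⟩, rfl⟩

instance : Countable (lat K) := by
  change Countable (Submodule.span ℤ (Set.range (mixedEmbedding.latticeBasis K)))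
  infer_instance

open scoped Classical in
theorem fund : IsAddFundamentalDomain (lat K)
    (ZSpan.fundamentalDomain (mixedEmbedding.latticeBasis K)) volume :=
  ZSpan.isAddFundamentalDomain' (mixedEmbedding.latticeBasis K) volume

theorem mem_body {R : ℝ≥0} {x : mixedEmbedding.mixedSpace K} :
    x ∈ mixedEmbedding.convexBodyLT K (fun _ => R) ↔
      (∀ w, ‖x.1 w‖ < R) ∧ ∀ w, ‖x.2 w‖ < R := by
  unfold mixedEmbedding.convexBodyLT
  rw [Set.mem_prod, Set.mem_pi, Set.mem_pi]
  simp only [Set.mem_univ, forall_true_left, mem_ball_zero_iff]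

theorem body_sub {R S : ℝ≥0} {x y : mixedEmbedding.mixedSpace K}
    (hx : x ∈ mixedEmbedding.convexBodyLT K (fun _ => R))
    (hy : y ∈ mixedEmbedding.convexBodyLT K (fun _ => S)) :
    x - y ∈ mixedEmbedding.convexBodyLT K (fun _ => R + S) := by
  rw [mem_body] at hx hy ⊢
  refine ⟨fun w => ?_, fun w => ?_⟩
  · exact lt_of_le_of_lt (norm_sub_le _ _) (add_lt_add (hx.1 w) (hy.1 w))
  · exact lt_of_le_of_lt (norm_sub_le _ _) (add_lt_add (hx.2 w) (hy.2 w))

theorem mem_bal_of_body {R : ℝ≥0} {a : K} (ha : IsIntegral ℤ a)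
    (h : mixedEmbedding K a ∈ mixedEmbedding.convexBodyLT K (fun _ => R)) : a ∈ bal K R := by
  rw [mem_bal_iff]
  exact ⟨ha, fun w => ((mixedEmbedding.convexBodyLT_mem K _).1 h w).le⟩

open scoped Classical in
theorem measurable_body (R : ℝ≥0) :
    MeasurableSet (mixedEmbedding.convexBodyLT K (fun _ => R)) := by
  apply MeasurableSet.prod
  · exact MeasurableSet.univ_pi fun _ => measurableSet_ball
  · exact MeasurableSet.univ_pi fun _ => measurableSet_ball

open scoped Classical in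
/-- Minkowski's theorem with multiplicity. -/
theorem minkowski (R : ℝ≥0) :
    (mixedEmbedding.convexBodyLTFactor K : ℝ≥0∞) * (R : ℝ≥0∞) ^ finrank ℚ K ≤
      ((bal K (R + R)).ncard : ℝ≥0∞) *
        volume (ZSpan.fundamentalDomain (mixedEmbedding.latticeBasis K)) := by
  rw [← vol_body]
  apply vol_le fund _ (measurable_body R)
  intro x A hA
  rcases A.eq_empty_or_nonempty with rfl | ⟨g₀, hg₀⟩
  · simp
  have h1 : ∀ g : lat K, ∃ a : K, IsIntegral ℤ a ∧ mixedEmbedding K a = ((g - g₀ : lat K) :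
      mixedEmbedding.mixedSpace K) := fun g => mem_lat.1 (g - g₀).2
  choose f hf1 hf2 using h1
  have hinj : Set.InjOn f A := by
    intro g _ g' _ h
    have h2 := hf2 g
    rw [h, hf2 g'] at h2
    exact (sub_left_injective (Subtype.val_injective h2)).symm
  rw [← Set.ncard_coe_finset, ← hinj.ncard_image]
  apply Set.ncard_le_ncard _ (bal_finite K _)
  rintro _ ⟨g, hg, rfl⟩
  have h3 : mixedEmbedding K (f g) ∈ mixedEmbedding.convexBodyLT K (fun _ => R + R) := by
    rw [hf2]
    have h4 : ((g - g₀ : lat K) : mixedEmbedding.mixedSpace K) = (g + x) - (g₀ + x) := by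
      rw [AddSubgroup.coe_sub]
      abel
    rw [h4]
    exact body_sub (hA g hg) (hA g₀ hg₀)
  have h5 := mem_bal_of_body (hf1 g) h3
  rw [NNReal.coe_add] at h5
  exact h5

end Pool.Agent.Helper43Frey
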