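import Pool.Agent.Helper43_Frey.Lat

/-!
# Counting algebraic integers with bounded conjugates, continued
-/

set_option linter.unusedSectionVars false

open MeasureTheory Module NumberField
open scoped ENNReal NNReal

noncomputable section

namespace Pool.Agent.Helper43Frey

variable {K : Type*} [Field K] [NumberField K]

open scoped Classical in
/-- Many algebraic integers with bounded conjugates. -/
theorem card_bal_ge {R : ℝ} (hR : 0 ≤ R) :
    (R / 2) ^ finrank ℚ K ≤ (bal K R).ncard * Real.sqrt |(discr K : ℝ)| := by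
  set r : ℝ≥0 := ⟨R / 2, by positivity⟩ with hr
  have h := minkowski (K := K) r
  have h1 : ((r : ℝ≥0) : ℝ) + r = R := by
    change R / 2 + R / 2 = R
    ring
  rw [h1, mixedEmbedding.volume_fundamentalDomain_latticeBasis] at h
  have h2 : (r : ℝ≥0∞) ^ finrank ℚ K ≤ ((bal K R).ncard : ℝ≥0∞) *
      ((NNReal.sqrt ‖discr K‖₊ : ℝ≥0) : ℝ≥0∞) := by
    calc (r : ℝ≥0∞) ^ finrank ℚ K
        ≤ (mixedEmbedding.convexBodyLTFactor K : ℝ≥0∞) * (r : ℝ≥0∞) ^ finrank ℚ K := by
          apply le_mul_of_one_le_left zero_le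
          exact_mod_cast mixedEmbedding.one_le_convexBodyLTFactor K
      _ ≤ _ := h
      _ ≤ _ := by
          apply mul_le_mul_right
          apply mul_le_of_le_one_left zero_le
          apply pow_le_one₀ zero_le
          exact ENNReal.inv_le_one.2 (by norm_num)
  have h3 : (r : ℝ≥0) ^ finrank ℚ K ≤ ((bal K R).ncard : ℝ≥0) * NNReal.sqrt ‖discr K‖₊ := by
    exact_mod_cast h2
  have h4 : ((r ^ finrank ℚ K : ℝ≥0) : ℝ) ≤
      ((((bal K R).ncard : ℝ≥0) * NNReal.sqrt ‖discr K‖₊ : ℝ≥0) : ℝ) := by exact_mod_cast h3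
  rw [NNReal.coe_pow, NNReal.coe_mul, NNReal.coe_natCast, Real.coe_sqrt, coe_nnnorm,
    Int.norm_eq_abs] at h4
  exact h4

/-- Few algebraic integers with bounded conjugates in a subspace. -/
theorem card_bal_le (V : Submodule ℚ K) {R : ℝ} (m : ℕ) (hm : 2 * R < m) :
    (bal K R ∩ V).ncard ≤ m ^ finrank ℚ V := by
  classical
  let M : Submodule ℤ (𝓞 K) := (V.restrictScalars ℤ).comap
    ((Algebra.linearMap (𝓞 K) K).restrictScalars ℤ)
  have hM : ∀ x : 𝓞 K, x ∈ M ↔ (x : K) ∈ V := fun x => Iff.rfl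
  let b := Module.finBasis ℤ M
  have hr : finrank ℤ M ≤ finrank ℚ V := by
    let v : Fin (finrank ℤ M) → V := fun i => ⟨((b i : 𝓞 K) : K), (b i).2⟩
    have hv : LinearIndependent ℤ v := by
      have h1 : LinearIndependent ℤ (fun i => (((b i : 𝓞 K) : K))) := by
        have h2 : LinearIndependent ℤ (fun i => (b i : 𝓞 K)) :=
          b.linearIndependent.map' M.subtype (Submodule.ker_subtype M)
        exact h2.map' ((Algebra.linearMap (𝓞 K) K).restrictScalars ℤ)
          (LinearMap.ker_eq_bot.2 (RingOfIntegers.coe_injective))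
      have h3 : (V.subtype.restrictScalars ℤ) ∘ v = fun i => (((b i : 𝓞 K) : K)) := rfl
      rw [← h3] at h1
      exact h1.of_comp _
    rw [LinearIndependent.iff_fractionRing ℤ ℚ] at hv
    have h4 := hv.fintype_card_le_finrank
    rwa [Fintype.card_fin] at h4
  rcases Nat.eq_zero_or_pos m with rfl | hmpos
  · have : (bal K R ∩ V) = ∅ := by
      ext x
      simp only [Set.mem_inter_iff, Set.mem_empty_iff_false, iff_false, not_and]
      intro hx
      obtain ⟨φ⟩ := (inferInstance : Nonempty (K →+* ℂ))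
      have h1 := (norm_nonneg _).trans (hx.2 φ)
      norm_num at hm
      linarith
    rw [this, Set.ncard_empty]
    exact Nat.zero_le _
  have : NeZero m := ⟨hmpos.ne'⟩
  have h1 : ∀ x ∈ bal K R ∩ V, ∃ y : M, ((y : 𝓞 K) : K) = x := fun x hx =>
    ⟨⟨⟨x, hx.1.1⟩, hx.2⟩, rfl⟩
  choose! f hf using h1
  let Φ : K → (Fin (finrank ℤ M) → ZMod m) := fun x i => (b.repr (f x) i : ZMod m)
  have hinj : Set.InjOn Φ (bal K R ∩ V) := by
    intro x hx y hy hxy
    have h2 : ∀ i, ((m : ℕ) : ℤ) ∣ b.repr (f x) i - b.repr (f y) i := by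
      intro i
      rw [← ZMod.intCast_zmod_eq_zero_iff_dvd, Int.cast_sub]
      exact sub_eq_zero.2 (congrFun hxy i)
    choose c hc using h2
    have h3 : f x - f y = (m : ℤ) • ∑ i, c i • b i := by
      rw [← b.sum_repr (f x - f y), Finset.smul_sum]
      apply Finset.sum_congr rfl
      intro i _
      rw [map_sub, Finsupp.sub_apply, hc i, mul_smul]
    set z : M := ∑ i, c i • b i with hz
    have h4 : x - y = (m : K) * ((z : 𝓞 K) : K) := by
      rw [← hf x hx, ← hf y hy]
      have h5 := congrArg (fun t : M => ((t : 𝓞 K) : K)) h3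
      simp only [Submodule.coe_sub, map_sub, Submodule.coe_smul] at h5
      rw [h5]
      simp
    have h6 : ((z : 𝓞 K) : K) = 0 := by
      apply eq_zero_of_lt_one (z : 𝓞 K).2
      intro φ
      have h7 : ‖φ (x - y)‖ ≤ R + R := (bal_sub hx.1 hy.1).2 φ
      rw [h4, map_mul, norm_mul, map_natCast, Complex.norm_natCast] at h7
      have hm0 : (0 : ℝ) < m := by exact_mod_cast hmpos
      by_contra hcon
      push Not at hcon
      have h8 : (m : ℝ) ≤ m * ‖φ ((z : 𝓞 K) : K)‖ := le_mul_of_one_le_right hm0.le hcon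
      linarith
    rw [h6, mul_zero, sub_eq_zero] at h4
    exact h4
  calc (bal K R ∩ V).ncard = (Φ '' (bal K R ∩ V)).ncard := hinj.ncard_image.symm
    _ ≤ (Set.univ : Set (Fin (finrank ℤ M) → ZMod m)).ncard :=
        Set.ncard_le_ncard (Set.subset_univ _) Set.finite_univ
    _ = m ^ finrank ℤ M := by
        rw [Set.ncard_univ, Nat.card_eq_fintype_card, Fintype.card_fun, ZMod.card, Fintype.card_fin]
    _ ≤ m ^ finrank ℚ V := Nat.pow_le_pow_right hmpos hr

end Pool.Agent.Helper43Frey
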