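import Pool.Agent.Helper43_Frey.Lat2

/-!
# The number of algebraic integers with bounded conjugates, upper bound
-/

set_option linter.unusedSectionVars false

open MeasureTheory Module NumberField
open scoped ENNReal NNReal

noncomputable section

namespace Pool.Agent.Helper43Frey

variable {K : Type*} [Field K] [NumberField K]

/-- A spanning family over the rationals spans the mixed space. -/
theorem span_mixed {n : ℕ} (v : Fin n → K) (hv : Submodule.span ℚ (Set.range v) = ⊤) :
    Submodule.span ℝ (Set.range fun i => mixedEmbedding K (v i)) = ⊤ := by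
  have h1 : ∀ x : K, mixedEmbedding K x ∈
      Submodule.span ℝ (Set.range fun i => mixedEmbedding K (v i)) := by
    intro x
    have hx : x ∈ Submodule.span ℚ (Set.range v) := by rw [hv]; trivial
    induction hx using Submodule.span_induction with
    | mem x hx =>
      obtain ⟨i, rfl⟩ := hx
      exact Submodule.subset_span ⟨i, rfl⟩
    | zero => rw [map_zero]; exact Submodule.zero_mem _
    | add x y _ _ hx hy => rw [map_add]; exact Submodule.add_mem _ hx hy
    | smul q x _ hx =>
      have h2 : mixedEmbedding K (q • x) = (q : ℝ) • mixedEmbedding K x := by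
        rw [map_rat_smul, Rat.cast_smul_eq_qsmul]
      rw [h2]
      exact Submodule.smul_mem _ _ hx
  rw [eq_top_iff, ← (mixedEmbedding.latticeBasis K).span_eq, Submodule.span_le]
  rintro _ ⟨i, rfl⟩
  rw [mixedEmbedding.latticeBasis_apply]
  exact h1 _

open scoped Classical in
/-- Covering: every point is close to a point of the lattice. -/
theorem covering {n : ℕ} (v : Fin n → K) (hv : Submodule.span ℚ (Set.range v) = ⊤) {H : ℝ≥0}
    (hH : ∀ i, v i ∈ bal K H) {e : ℝ≥0} (he : 0 < e) (x : mixedEmbedding.mixedSpace K) :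
    ∃ g : lat K, (g : mixedEmbedding.mixedSpace K) + x ∈
      mixedEmbedding.convexBodyLT K (fun _ => n * H + e) := by
  have hx : x ∈ Submodule.span ℝ (Set.range fun i => mixedEmbedding K (v i)) := by
    rw [span_mixed v hv]
    trivial
  rw [Submodule.mem_span_range_iff_exists_fun] at hx
  obtain ⟨c, rfl⟩ := hx
  have hg : (∑ i, (-⌊c i⌋) • mixedEmbedding K (v i)) ∈ lat K := by
    apply AddSubgroup.sum_mem
    intro i _
    exact AddSubgroup.zsmul_mem _ (mem_lat.2 ⟨v i, (hH i).1, rfl⟩) _
  refine ⟨⟨_, hg⟩, ?_⟩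
  have h1 : (∑ i, (-⌊c i⌋) • mixedEmbedding K (v i)) + ∑ i, c i • mixedEmbedding K (v i) =
      ∑ i, Int.fract (c i) • mixedEmbedding K (v i) := by
    rw [← Finset.sum_add_distrib]
    apply Finset.sum_congr rfl
    intro i _
    rw [← Int.cast_smul_eq_zsmul ℝ, ← add_smul]
    congr 1
    push_cast
    rw [Int.fract]
    ring
  change (∑ i, (-⌊c i⌋) • mixedEmbedding K (v i)) + ∑ i, c i • mixedEmbedding K (v i) ∈ _
  rw [h1, mem_body]
  have h2 : ∀ i, ‖mixedEmbedding K (v i)‖ ≤ H := by
    intro i
    rw [mixedEmbedding.norm_eq_sup'_normAtPlace]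
    apply Finset.sup'_le
    intro w _
    rw [mixedEmbedding.normAtPlace_apply]
    exact (mem_bal_iff.1 (hH i)).2 w
  have h3 : ‖∑ i, Int.fract (c i) • mixedEmbedding K (v i)‖ ≤ n * H := by
    refine (norm_sum_le _ _).trans ?_
    calc ∑ i, ‖Int.fract (c i) • mixedEmbedding K (v i)‖ ≤ ∑ _i : Fin n, (H : ℝ) := by
          apply Finset.sum_le_sum
          intro i _
          rw [norm_smul, Real.norm_of_nonneg (Int.fract_nonneg _)]
          exact (mul_le_of_le_one_left (norm_nonneg _) (Int.fract_lt_one _).le).trans (h2 i)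
      _ = n * H := by
          rw [Finset.sum_const, Finset.card_univ, Fintype.card_fin, nsmul_eq_mul]
  have h4 : ‖∑ i, Int.fract (c i) • mixedEmbedding K (v i)‖ < ((n * H + e : ℝ≥0) : ℝ) := by
    refine lt_of_le_of_lt h3 ?_
    push_cast
    exact lt_add_of_pos_right _ he
  refine ⟨fun w => lt_of_le_of_lt ?_ h4, fun w => lt_of_le_of_lt ?_ h4⟩
  · exact (norm_le_pi_norm _ w).trans (norm_fst_le _)
  · exact (norm_le_pi_norm _ w).trans (norm_snd_le _)

open scoped Classical in
/-- The upper bound for the number of integers with bounded conjugates. -/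
theorem minkowski_upper {n : ℕ} (v : Fin n → K) (hv : Submodule.span ℚ (Set.range v) = ⊤)
    {H : ℝ≥0} (hH0 : 0 < H) (hH : ∀ i, v i ∈ bal K H) :
    ((bal K H).ncard : ℝ≥0∞) *
        volume (ZSpan.fundamentalDomain (mixedEmbedding.latticeBasis K)) ≤
      (mixedEmbedding.convexBodyLTFactor K : ℝ≥0∞) *
        (((n + 3 : ℝ≥0) * H : ℝ≥0) : ℝ≥0∞) ^ finrank ℚ K := by
  rw [← vol_body]
  apply le_vol fund _ (measurable_body _)
  intro x
  obtain ⟨g₀, hg₀⟩ := covering v hv hH hH0 x
  have h1 : ∀ a ∈ bal K (H : ℝ), ∃ g : lat K, (g : mixedEmbedding.mixedSpace K) =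
      g₀ + mixedEmbedding K a := fun a ha =>
    ⟨g₀ + ⟨_, mem_lat.2 ⟨a, ha.1, rfl⟩⟩, rfl⟩
  choose! f hf using h1
  have hinj : Set.InjOn f (bal K (H : ℝ)) := by
    intro a ha b hb hab
    have h2 := hf a ha
    rw [hab, hf b hb] at h2
    exact mixedEmbedding_injective K (add_left_cancel h2).symm
  refine ⟨(bal_finite K (H : ℝ)).toFinset.image f, ?_, ?_⟩
  · intro g hg
    rw [Finset.mem_image] at hg
    obtain ⟨a, ha, rfl⟩ := hg
    rw [Set.Finite.mem_toFinset] at ha
    rw [hf a ha]
    have h3 : -mixedEmbedding K a ∈ mixedEmbedding.convexBodyLT K (fun _ => H + H) := by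
      rw [← map_neg, mixedEmbedding.convexBodyLT_mem]
      intro w
      have h4 := (mem_bal_iff.1 ha).2 w
      have h8 : w (-a) = w a := AbsoluteValue.map_neg w.1 a
      rw [h8]
      refine lt_of_le_of_lt h4 ?_
      rw [NNReal.coe_add]
      exact lt_add_of_pos_right _ (NNReal.coe_pos.2 hH0)
    have h5 := body_sub hg₀ h3
    have h6 : (g₀ : mixedEmbedding.mixedSpace K) + x - -mixedEmbedding K a =
        g₀ + mixedEmbedding K a + x := by abel
    have h7 : (n * H + H + (H + H) : ℝ≥0) = (n + 3) * H := by ring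
    rw [h6, h7] at h5
    exact h5
  · rw [Finset.card_image_of_injOn, Set.ncard_eq_toFinset_card _ (bal_finite K (H : ℝ))]
    rw [Set.Finite.coe_toFinset]
    exact hinj

end Pool.Agent.Helper43Frey
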