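import Pool.Agent.Helper43_Frey.Lat3

/-!
# Spanning families of small algebraic integers
-/

set_option linter.unusedSectionVars false

open MeasureTheory Module NumberField
open scoped ENNReal NNReal Pointwise

noncomputable section

namespace Pool.Agent.Helper43Frey

variable {K : Type*} [Field K] [NumberField K]

/-- The products of the elements of a subspace of dimension more than half span. -/
theorem mul_self_eq_top (V : Submodule ℚ K) (h : finrank ℚ K < 2 * finrank ℚ V) :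
    V * V = ⊤ := by
  by_contra hne
  obtain ⟨f, hf, hle⟩ := Submodule.exists_le_ker_of_lt_top _ (lt_top_iff_ne_top.2 hne)
  let B : K →ₗ[ℚ] (K →ₗ[ℚ] ℚ) := (LinearMap.mul ℚ K).compr₂ f
  have hB : ∀ x y, B x y = f (x * y) := fun x y => rfl
  have hinj : Function.Injective B := by
    rw [← LinearMap.ker_eq_bot, LinearMap.ker_eq_bot']
    intro x hx
    by_contra hx0
    apply hf
    ext y
    have h1 := LinearMap.congr_fun hx (x⁻¹ * y)
    rw [hB, mul_inv_cancel_left₀ hx0] at h1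
    exact h1
  have h2 : V.map B ≤ V.dualAnnihilator := by
    rintro _ ⟨x, hx, rfl⟩
    rw [Submodule.mem_dualAnnihilator]
    intro y hy
    rw [hB]
    exact hle (Submodule.mul_mem_mul hx hy)
  have h3 := Submodule.finrank_mono h2
  have h4 : finrank ℚ V = finrank ℚ (V.map B) :=
    (Submodule.equivMapOfInjective B hinj V).finrank_eq
  have h5 : finrank ℚ V + finrank ℚ V.dualAnnihilator = finrank ℚ K :=
    Subspace.finrank_add_finrank_dualAnnihilator_eq V
  have h6 : finrank ℚ (V.map B) ≤ finrank ℚ V.dualAnnihilator := h3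
  omega

/-- A spanning family of small elements. -/
theorem exists_family {R : ℝ} (hR : 0 ≤ R)
    (h : finrank ℚ K < 2 * finrank ℚ (Submodule.span ℚ (bal K R))) :
    ∃ v : Fin (finrank ℚ K) → K, (∀ i, v i ∈ bal K (R * R)) ∧
      Submodule.span ℚ (Set.range v) = ⊤ := by
  classical
  have h1 := mul_self_eq_top _ h
  rw [Submodule.span_mul_span] at h1
  obtain ⟨b, hb1, hb2, hb3⟩ := exists_linearIndependent ℚ (bal K R * bal K R)
  rw [h1] at hb2
  let B : Basis b ℚ K := Basis.mk hb3 (by rw [Subtype.range_coe]; exact hb2.ge)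
  have : Fintype b := FiniteDimensional.fintypeBasisIndex B
  have hcard : Fintype.card b = finrank ℚ K := (finrank_eq_card_basis B).symm
  let e : Fin (finrank ℚ K) ≃ b := (Fintype.equivFinOfCardEq hcard).symm
  refine ⟨fun i => (e i : K), fun i => ?_, ?_⟩
  · obtain ⟨x, hx, y, hy, hxy⟩ := Set.mem_mul.1 (hb1 (e i).2)
    change (e i : K) ∈ _
    rw [← hxy]
    exact bal_mul hR hx hy
  · have h2 : (Set.range fun i => (e i : K)) = b := by
      ext x
      constructor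
      · rintro ⟨i, rfl⟩
        exact (e i).2
      · intro hx
        exact ⟨e.symm ⟨x, hx⟩, by simp⟩
    rw [h2, hb2]

theorem exists_nat {R : ℝ} (hR : 1 ≤ R) : ∃ m : ℕ, 2 * R < m ∧ (m : ℝ) ≤ 3 * R := by
  refine ⟨⌊2 * R⌋₊ + 1, ?_, ?_⟩
  · push_cast
    exact Nat.lt_floor_add_one _
  · push_cast
    have := Nat.floor_le (show 0 ≤ 2 * R by linarith)
    linarith

/-- The span of the small elements is large. -/
theorem span_large {R : ℝ} (hR : 1 ≤ R)
    (hD : 2 ^ finrank ℚ K * 3 ^ (finrank ℚ K / 2) * Real.sqrt |(discr K : ℝ)| <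
      R ^ (finrank ℚ K - finrank ℚ K / 2)) :
    finrank ℚ K < 2 * finrank ℚ (Submodule.span ℚ (bal K R)) := by
  by_contra hcon
  push Not at hcon
  set n := finrank ℚ K with hn
  set k := finrank ℚ (Submodule.span ℚ (bal K R)) with hk
  have hR0 : 0 < R := by linarith
  obtain ⟨m, hm1, hm2⟩ := exists_nat hR
  have h1 := card_bal_ge (K := K) hR0.le
  have h2 := card_bal_le (Submodule.span ℚ (bal K R)) m hm1
  rw [Set.inter_eq_left.2 Submodule.subset_span] at h2
  have h3 : ((bal K R).ncard : ℝ) ≤ (3 * R) ^ (n / 2) := by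
    calc ((bal K R).ncard : ℝ) ≤ ((m ^ k : ℕ) : ℝ) := by exact_mod_cast h2
      _ = (m : ℝ) ^ k := by push_cast; rfl
      _ ≤ (3 * R) ^ k := pow_le_pow_left₀ (Nat.cast_nonneg _) hm2 _
      _ ≤ (3 * R) ^ (n / 2) := pow_le_pow_right₀ (by linarith) (by omega)
  set D := Real.sqrt |(discr K : ℝ)| with hDdef
  have hD0 : 0 ≤ D := Real.sqrt_nonneg _
  have h4 : (R / 2) ^ n ≤ (3 * R) ^ (n / 2) * D := h1.trans (mul_le_mul_of_nonneg_right h3 hD0)
  have h5 : R ^ n = R ^ (n - n / 2) * R ^ (n / 2) := by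
    rw [← pow_add]
    congr 1
    omega
  rw [div_pow, mul_pow, div_le_iff₀ (by positivity), h5] at h4
  have h6 : R ^ (n - n / 2) * R ^ (n / 2) ≤ (2 ^ n * 3 ^ (n / 2) * D) * R ^ (n / 2) := by
    calc _ ≤ _ := h4
      _ = _ := by ring
  have h7 := le_of_mul_le_mul_right h6 (by positivity)
  linarith

/-- The upper bound. -/
theorem card_bal_upper {H : ℝ} (hH : 1 ≤ H)
    (hD : 2 ^ finrank ℚ K * 3 ^ (finrank ℚ K / 2) * Real.sqrt |(discr K : ℝ)| <
      Real.sqrt H ^ (finrank ℚ K - finrank ℚ K / 2)) :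
    (bal K H).ncard * Real.sqrt |(discr K : ℝ)| ≤
      (7 * (finrank ℚ K + 3) * H) ^ finrank ℚ K := by
  classical
  have hs : 1 ≤ Real.sqrt H := Real.one_le_sqrt.2 hH
  obtain ⟨v, hv1, hv2⟩ := exists_family (Real.sqrt_nonneg H) (span_large hs hD)
  set h : ℝ≥0 := ⟨H, by linarith⟩ with hh
  have hcoe : (h : ℝ) = H := rfl
  have hv1' : ∀ i, v i ∈ bal K (h : ℝ) := by
    intro i
    have := hv1 i
    rwa [Real.mul_self_sqrt (by linarith)] at this
  have hh0 : 0 < h := by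
    rw [← NNReal.coe_pos, hcoe]
    linarith
  have h1 := minkowski_upper v hv2 hh0 hv1'
  rw [mixedEmbedding.volume_fundamentalDomain_latticeBasis] at h1
  set n := finrank ℚ K with hn
  set r1 := InfinitePlace.nrRealPlaces K
  set r2 := InfinitePlace.nrComplexPlaces K
  have hr : r1 + 2 * r2 = n := InfinitePlace.card_add_two_mul_card_eq_rank K
  rw [hcoe] at h1
  have h2 : (2 : ℝ≥0∞)⁻¹ ^ r2 * (NNReal.sqrt ‖discr K‖₊ : ℝ≥0∞) =
      (((2 : ℝ≥0)⁻¹ ^ r2 * NNReal.sqrt ‖discr K‖₊ : ℝ≥0) : ℝ≥0∞) := by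
    push_cast
    rfl
  rw [h2] at h1
  have h3' : ((bal K H).ncard : ℝ≥0) * ((2 : ℝ≥0)⁻¹ ^ r2 * NNReal.sqrt ‖discr K‖₊) ≤
      mixedEmbedding.convexBodyLTFactor K * ((n + 3 : ℝ≥0) * h) ^ n := by
    exact_mod_cast h1
  have h3 : ((bal K H).ncard : ℝ≥0) * ((2 : ℝ≥0)⁻¹ ^ r2 * NNReal.sqrt ‖discr K‖₊) ≤
      (2 ^ r1 * NNReal.pi ^ r2) * ((n + 3 : ℝ≥0) * h) ^ n := h3'
  have h4 : ((bal K H).ncard : ℝ) * ((2 : ℝ)⁻¹ ^ r2 * Real.sqrt |(discr K : ℝ)|) ≤
      (2 ^ r1 * Real.pi ^ r2) * ((n + 3 : ℝ) * H) ^ n := by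
    have h5 := NNReal.coe_le_coe.2 h3
    push_cast at h5
    rw [Int.norm_eq_abs] at h5
    exact h5
  have h6 : ((bal K H).ncard : ℝ) * Real.sqrt |(discr K : ℝ)| ≤
      2 ^ r2 * ((2 ^ r1 * Real.pi ^ r2) * ((n + 3 : ℝ) * H) ^ n) := by
    have h7 : ((bal K H).ncard : ℝ) * Real.sqrt |(discr K : ℝ)| =
        2 ^ r2 * (((bal K H).ncard : ℝ) * ((2 : ℝ)⁻¹ ^ r2 * Real.sqrt |(discr K : ℝ)|)) := by
      rw [inv_pow]
      field_simp
    rw [h7]
    exact mul_le_mul_of_nonneg_left h4 (by positivity)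
  refine h6.trans ?_
  have h8 : (2 : ℝ) ^ r2 * (2 ^ r1 * Real.pi ^ r2) ≤ 7 ^ n := by
    have h9 : (2 : ℝ) * Real.pi ≤ 7 := by
      have := Real.pi_lt_d2
      linarith
    calc (2 : ℝ) ^ r2 * (2 ^ r1 * Real.pi ^ r2) = 2 ^ r1 * (2 * Real.pi) ^ r2 := by
          rw [mul_pow]
          ring
      _ ≤ 7 ^ r1 * 7 ^ r2 := by
          apply mul_le_mul (pow_le_pow_left₀ (by norm_num) (by norm_num) _)
            (pow_le_pow_left₀ (by positivity) h9 _) (by positivity) (by positivity)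
      _ = 7 ^ (r1 + r2) := (pow_add _ _ _).symm
      _ ≤ 7 ^ n := pow_le_pow_right₀ (by norm_num) (by omega)
  calc (2 : ℝ) ^ r2 * ((2 ^ r1 * Real.pi ^ r2) * ((n + 3 : ℝ) * H) ^ n)
      = (2 : ℝ) ^ r2 * (2 ^ r1 * Real.pi ^ r2) * ((n + 3 : ℝ) * H) ^ n := by ring
    _ ≤ 7 ^ n * ((n + 3 : ℝ) * H) ^ n :=
        mul_le_mul_of_nonneg_right h8 (by positivity)
    _ = (7 * (n + 3) * H) ^ n := by
        rw [← mul_pow]
        congr 1
        ring

end Pool.Agent.Helper43Frey
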