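import Pool.Agent.Helper43_Frey.Lat4
import Pool.Agent.Helper79_FreyD.OK

/-!
# Small primitive elements, and the two counting theorems for the integers of a number field
-/

set_option linter.unusedSectionVars false

open MeasureTheory Module NumberField
open scoped ENNReal NNReal Pointwise IntermediateField

noncomputable section

namespace Pool.Agent.Helper43Frey

section prim

variable {K : Type*} [Field K] [NumberField K]

/-- The field where two embeddings agree. -/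
def eqF (φ ψ : K →ₐ[ℚ] ℂ) : IntermediateField ℚ K :=
  (AlgHom.equalizer φ ψ).toIntermediateField (fun x hx => by
    change φ x⁻¹ = ψ x⁻¹
    have h : φ x = ψ x := hx
    rw [map_inv₀, map_inv₀, h])

theorem mem_eqF {φ ψ : K →ₐ[ℚ] ℂ} {x : K} : x ∈ eqF φ ψ ↔ φ x = ψ x := Iff.rfl

theorem dvd_le {d n : ℕ} (hn : n ≠ 0) (hd : d ∣ n) (hne : d ≠ n) : d ≤ n / n.minFac := by
  obtain ⟨c, rfl⟩ := hd
  have hd0 : 0 < d := Nat.pos_of_ne_zero fun h => hn (by rw [h, zero_mul])
  have hc0 : 0 < c := Nat.pos_of_ne_zero fun h => hn (by rw [h, mul_zero])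
  have hc1 : c ≠ 1 := fun h => hne (by rw [h, mul_one])
  have h1 : (d * c).minFac ≤ c := Nat.minFac_le_of_dvd (by omega) (dvd_mul_left _ _)
  have h2 : 0 < (d * c).minFac := Nat.minFac_pos _
  rw [Nat.le_div_iff_mul_le h2]
  exact Nat.mul_le_mul_left d h1

theorem finrank_eqF {φ ψ : K →ₐ[ℚ] ℂ} (h : φ ≠ ψ) :
    finrank ℚ (eqF φ ψ) ≤ finrank ℚ K / (finrank ℚ K).minFac := by
  have hn : finrank ℚ K ≠ 0 := finrank_pos.ne'
  have h1 := finrank_mul_finrank ℚ (eqF φ ψ) K
  apply dvd_le hn ⟨_, h1.symm⟩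
  intro h2
  apply h
  have h3 : eqF φ ψ = ⊤ := by
    apply IntermediateField.eq_of_le_of_finrank_eq le_top
    rw [h2, IntermediateField.finrank_top']
  ext x
  have : x ∈ eqF φ ψ := by rw [h3]; trivial
  exact mem_eqF.1 this

theorem exists_primitive {R : ℝ} (hR : 1 ≤ R)
    (h : 2 ^ finrank ℚ K * finrank ℚ K ^ 2 * 3 ^ (finrank ℚ K / (finrank ℚ K).minFac) *
      Real.sqrt |(discr K : ℝ)| <
        R ^ (finrank ℚ K - finrank ℚ K / (finrank ℚ K).minFac)) :
    ∃ x ∈ bal K R, ℚ⟮x⟯ = ⊤ := by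
  classical
  by_contra hcon
  push Not at hcon
  set n := finrank ℚ K with hn
  set k := n / n.minFac with hk
  have hR0 : 0 < R := by linarith
  obtain ⟨m, hm1, hm2⟩ := exists_nat hR
  have h1 := card_bal_ge (K := K) hR0.le
  have h2 : bal K R ⊆ ⋃ p ∈ (Finset.univ.filter (fun p : (K →ₐ[ℚ] ℂ) × (K →ₐ[ℚ] ℂ) =>
      p.1 ≠ p.2)), (bal K R ∩ (Subalgebra.toSubmodule (eqF p.1 p.2).toSubalgebra : Set K)) := by
    intro x hx
    have h3 := hcon x hx
    rw [Ne, Field.primitive_element_iff_algHom_eq_of_eval' ℚ ℂ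
      (fun x => IsAlgClosed.splits _)] at h3
    unfold Function.Injective at h3
    push Not at h3
    obtain ⟨φ, ψ, h4, h5⟩ := h3
    rw [Set.mem_iUnion₂]
    exact ⟨(φ, ψ), Finset.mem_filter.2 ⟨Finset.mem_univ _, h5⟩, hx, h4⟩
  have h3 : (bal K R).ncard ≤ n ^ 2 * m ^ k := by
    calc (bal K R).ncard ≤ _ := Set.ncard_le_ncard h2
          (Set.Finite.biUnion (Finset.finite_toSet _)
            (fun p _ => (bal_finite K R).subset Set.inter_subset_left))
      _ ≤ ∑ p ∈ (Finset.univ.filter (fun p : (K →ₐ[ℚ] ℂ) × (K →ₐ[ℚ] ℂ) => p.1 ≠ p.2)),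
          (bal K R ∩ (Subalgebra.toSubmodule (eqF p.1 p.2).toSubalgebra : Set K)).ncard :=
          Finset.set_ncard_biUnion_le _ _
      _ ≤ ∑ p ∈ (Finset.univ.filter (fun p : (K →ₐ[ℚ] ℂ) × (K →ₐ[ℚ] ℂ) => p.1 ≠ p.2)),
          m ^ k := by
          apply Finset.sum_le_sum
          intro p hp
          rw [Finset.mem_filter] at hp
          refine (card_bal_le _ m hm1).trans ?_
          have hmpos : 0 < m := by
            have : (0 : ℝ) < m := by linarith
            exact_mod_cast this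
          exact Nat.pow_le_pow_right hmpos (finrank_eqF hp.2)
      _ ≤ n ^ 2 * m ^ k := by
          rw [Finset.sum_const, smul_eq_mul]
          apply Nat.mul_le_mul_right
          refine (Finset.card_filter_le _ _).trans ?_
          rw [Finset.card_univ, Fintype.card_prod, AlgHom.card, ← hn, sq]
  have h4 : ((bal K R).ncard : ℝ) ≤ n ^ 2 * (3 * R) ^ k := by
    calc ((bal K R).ncard : ℝ) ≤ ((n ^ 2 * m ^ k : ℕ) : ℝ) := by exact_mod_cast h3
      _ = (n : ℝ) ^ 2 * (m : ℝ) ^ k := by push_cast; rfl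
      _ ≤ (n : ℝ) ^ 2 * (3 * R) ^ k :=
          mul_le_mul_of_nonneg_left (pow_le_pow_left₀ (Nat.cast_nonneg _) hm2 _) (by positivity)
  set D := Real.sqrt |(discr K : ℝ)| with hDdef
  have hD0 : 0 ≤ D := Real.sqrt_nonneg _
  have h5 : (R / 2) ^ n ≤ (n ^ 2 * (3 * R) ^ k) * D :=
    h1.trans (mul_le_mul_of_nonneg_right h4 hD0)
  have h6 : R ^ n = R ^ (n - k) * R ^ k := by
    rw [← pow_add]
    congr 1
    have : k ≤ n := Nat.div_le_self _ _
    omega
  rw [div_pow, mul_pow, div_le_iff₀ (by positivity), h6] at h5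
  have h7 : R ^ (n - k) * R ^ k ≤ (2 ^ n * n ^ 2 * 3 ^ k * D) * R ^ k := by
    calc _ ≤ _ := h5
      _ = _ := by ring
  have h8 := le_of_mul_le_mul_right h7 (by positivity)
  linarith

theorem small_ncard_eq (R : ℝ) : (Helper79FreyD.small K R).ncard = (bal K R).ncard := by
  have h : bal K R = (fun x : 𝓞 K => (x : K)) '' Helper79FreyD.small K R := by
    ext x
    constructor
    · intro hx
      exact ⟨⟨x, hx.1⟩, hx.2, rfl⟩
    · rintro ⟨y, hy, rfl⟩
      exact ⟨y.2, hy⟩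
  rw [h, Set.ncard_image_of_injective _ RingOfIntegers.coe_injective]

end prim

universe u

/-- T3: the number of integers with conjugates at most `H`, when the discriminant is at most
`H ^ ((n - 1) / 2)`. -/
theorem small_ncard_upper (n : ℕ) : ∃ C : ℝ, 0 < C ∧ ∀ (K : Type u) [Field K] [NumberField K],
    finrank ℚ K = n → ∀ H : ℝ, 1 ≤ H → |(discr K : ℝ)| ≤ H ^ ((n - 1) / 2) →
      ((Helper79FreyD.small K H).ncard : ℝ) * Real.sqrt |(discr K : ℝ)| ≤ C * H ^ n := by
  set A : ℝ := 4 ^ n * 9 ^ (n / 2) with hA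
  have hA1 : 1 ≤ A := by
    have h1 : (1 : ℝ) ≤ 4 ^ n := one_le_pow₀ (by norm_num)
    have h2 : (1 : ℝ) ≤ 9 ^ (n / 2) := one_le_pow₀ (by norm_num)
    nlinarith
  refine ⟨(7 * (n + 3)) ^ n + 3 ^ n * A ^ ((n - 1) / 2), by positivity, ?_⟩
  intro K _ _ hK H hH hD
  set D : ℝ := |(discr K : ℝ)| with hDdef
  have hD1 : 1 ≤ D := by
    rw [hDdef, ← Int.cast_abs]
    exact_mod_cast Int.one_le_abs (discr_ne_zero K)
  have hH0 : 0 < H := by linarith
  have hn : 0 < n := hK ▸ finrank_pos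
  rcases lt_or_ge A H with h | h
  · have h1 : 2 ^ n * 3 ^ (n / 2) * Real.sqrt D < Real.sqrt H ^ (n - n / 2) := by
      have e1 : (2 ^ n * 3 ^ (n / 2) * Real.sqrt D) ^ 2 = A * D := by
        rw [mul_pow, mul_pow, Real.sq_sqrt (by linarith), ← pow_mul, ← pow_mul, mul_comm n 2,
          mul_comm (n / 2) 2, pow_mul, pow_mul, hA]
        norm_num
      have e2 : (Real.sqrt H ^ (n - n / 2)) ^ 2 = H ^ (n - n / 2) := by
        rw [← pow_mul, mul_comm, pow_mul, Real.sq_sqrt hH0.le]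
      apply lt_of_pow_lt_pow_left₀ 2 (by positivity)
      rw [e1, e2]
      calc A * D ≤ A * H ^ ((n - 1) / 2) :=
            mul_le_mul_of_nonneg_left hD (by positivity)
        _ < H * H ^ ((n - 1) / 2) := mul_lt_mul_of_pos_right h (by positivity)
        _ = H ^ ((n - 1) / 2 + 1) := by rw [pow_succ]; ring
        _ = H ^ (n - n / 2) := by congr 1; omega
    have h2 := card_bal_upper (K := K) hH (by rw [hK]; exact h1)
    rw [hK] at h2
    rw [small_ncard_eq]
    calc _ ≤ _ := h2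
      _ = (7 * (n + 3)) ^ n * H ^ n := by rw [mul_pow]
      _ ≤ ((7 * (n + 3)) ^ n + 3 ^ n * A ^ ((n - 1) / 2)) * H ^ n := by
          apply mul_le_mul_of_nonneg_right _ (by positivity)
          have : (0 : ℝ) ≤ 3 ^ n * A ^ ((n - 1) / 2) := by positivity
          linarith
  · have h1 := Helper79FreyD.small_ncard (K := K) H hH0.le
    rw [hK] at h1
    have h2 : (2 * H + 1) ^ n ≤ (3 * H) ^ n := by
      apply pow_le_pow_left₀ (by positivity)
      linarith
    have h3 : Real.sqrt D ≤ A ^ ((n - 1) / 2) := by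
      calc Real.sqrt D ≤ D := by
            rw [Real.sqrt_le_left (by linarith)]
            nlinarith
        _ ≤ H ^ ((n - 1) / 2) := hD
        _ ≤ A ^ ((n - 1) / 2) := pow_le_pow_left₀ hH0.le h _
    calc ((Helper79FreyD.small K H).ncard : ℝ) * Real.sqrt D
        ≤ (3 * H) ^ n * A ^ ((n - 1) / 2) :=
          mul_le_mul (h1.trans h2) h3 (Real.sqrt_nonneg _) (by positivity)
      _ = 3 ^ n * A ^ ((n - 1) / 2) * H ^ n := by rw [mul_pow]; ring
      _ ≤ ((7 * (n + 3)) ^ n + 3 ^ n * A ^ ((n - 1) / 2)) * H ^ n := by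
          apply mul_le_mul_of_nonneg_right _ (by positivity)
          have : (0 : ℝ) ≤ (7 * (n + 3)) ^ n := by positivity
          linarith

/-- T4: small primitive elements. The exponent `1 / (2 (n - n / q))`, `q` the least prime factor
of `n`, is `q / (2 n (q - 1))`; for `n` prime it is `1 / (2 (n - 1))`. -/
theorem exists_small_primitive (n : ℕ) (hn : 2 ≤ n) : ∃ C : ℝ, 0 < C ∧
    ∀ (K : Type u) [Field K] [NumberField K], finrank ℚ K = n →
      ∃ y : 𝓞 K, ℚ⟮(y : K)⟯ = ⊤ ∧ ∀ φ : K →+* ℂ, ‖φ (y : K)‖ ≤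
        C * |(discr K : ℝ)| ^ (1 / (2 * ((n - n / n.minFac : ℕ) : ℝ))) := by
  set s := n - n / n.minFac with hs
  have hq : 2 ≤ n.minFac := (Nat.minFac_prime (by omega)).two_le
  have hs1 : 1 ≤ s := by
    have : n / n.minFac ≤ n / 2 := Nat.div_le_div_left hq (by norm_num)
    omega
  set C : ℝ := 2 ^ n * n ^ 2 * 3 ^ (n / n.minFac) + 1 with hC
  have hC1 : 1 ≤ C := by
    have : (0 : ℝ) ≤ 2 ^ n * n ^ 2 * 3 ^ (n / n.minFac) := by positivity
    linarith
  refine ⟨C, by linarith, ?_⟩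
  intro K _ _ hK
  set D : ℝ := |(discr K : ℝ)| with hDdef
  have hD1 : 1 ≤ D := by
    rw [hDdef, ← Int.cast_abs]
    exact_mod_cast Int.one_le_abs (discr_ne_zero K)
  set R : ℝ := C * D ^ (1 / (2 * (s : ℝ))) with hR
  have hDp : 1 ≤ D ^ (1 / (2 * (s : ℝ))) := Real.one_le_rpow hD1 (by positivity)
  have hR1 : 1 ≤ R := by nlinarith
  have h1 : 2 ^ n * (n : ℝ) ^ 2 * 3 ^ (n / n.minFac) * Real.sqrt D < R ^ s := by
    have h2 : (D ^ (1 / (2 * (s : ℝ)))) ^ s = Real.sqrt D := by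
      rw [← Real.rpow_natCast, ← Real.rpow_mul (by linarith), Real.sqrt_eq_rpow]
      congr 1
      have : (s : ℝ) ≠ 0 := by exact_mod_cast (by omega : s ≠ 0)
      field_simp
    rw [hR, mul_pow, h2]
    apply mul_lt_mul_of_pos_right _ (Real.sqrt_pos.2 (by linarith))
    calc 2 ^ n * (n : ℝ) ^ 2 * 3 ^ (n / n.minFac) < C := by rw [hC]; linarith
      _ = C ^ 1 := (pow_one C).symm
      _ ≤ C ^ s := pow_le_pow_right₀ hC1 hs1
  obtain ⟨x, hx, hx2⟩ := exists_primitive (K := K) hR1 (by rw [hK]; exact h1)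
  exact ⟨⟨x, hx.1⟩, hx2, hx.2⟩

end Pool.Agent.Helper43Frey
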