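import Pool.Agent.Helper43_Frey.Lat5

/-!
# Small elements of orders

For every subring `O` of the integers of a number field of degree `n` and every `H ≥ 1`, the number
of elements of `O` with conjugates at most `H` is at most
`C (H ^ n / (q sqrt |D|) + H ^ (n / 2 + ε))`, where `q` is the index of `O`.
-/

set_option linter.unusedSectionVars false

open MeasureTheory Module NumberField
open scoped ENNReal NNReal Pointwise IntermediateField

noncomputable section

namespace Pool.Agent.Helper43Frey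

variable {K : Type*} [Field K] [NumberField K]

/-- The elements of `A` with small conjugates. -/
def balO (A : Subring K) (R : ℝ) : Set K := bal K R ∩ A

theorem balO_finite (A : Subring K) (R : ℝ) : (balO A R).Finite :=
  (bal_finite K R).subset Set.inter_subset_left

theorem balO_mono (A : Subring K) {R S : ℝ} (h : R ≤ S) : balO A R ⊆ balO A S :=
  Set.inter_subset_inter_left _ (bal_mono h)

/-- The span of the small elements. -/
def W (A : Subring K) (R : ℝ) : Submodule ℚ K := Submodule.span ℚ (balO A R)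

theorem W_mono (A : Subring K) {R S : ℝ} (h : R ≤ S) : W A R ≤ W A S :=
  Submodule.span_mono (balO_mono A h)

/-- Passing from the scale `R` to the scale `2 R / m`. -/
theorem scale (A : Subring K) {R S : ℝ} (m : ℕ) (hm : 0 < m) (hRS : 2 * R ≤ m * S) :
    (balO A R).ncard ≤ m ^ finrank ℚ (W A R) * (balO A S).ncard := by
  classical
  let M : Submodule ℤ (𝓞 K) := ((W A R).restrictScalars ℤ).comap
    ((Algebra.linearMap (𝓞 K) K).restrictScalars ℤ) ⊓
      (A.toAddSubgroup.toIntSubmodule).comap ((Algebra.linearMap (𝓞 K) K).restrictScalars ℤ)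
  have hM : ∀ x : 𝓞 K, x ∈ M ↔ (x : K) ∈ W A R ∧ (x : K) ∈ A := fun x => Iff.rfl
  let b := Module.finBasis ℤ M
  have hr : finrank ℤ M ≤ finrank ℚ (W A R) := by
    let v : Fin (finrank ℤ M) → W A R := fun i => ⟨((b i : 𝓞 K) : K), (b i).2.1⟩
    have hv : LinearIndependent ℤ v := by
      have h1 : LinearIndependent ℤ (fun i => (((b i : 𝓞 K) : K))) := by
        have h2 : LinearIndependent ℤ (fun i => (b i : 𝓞 K)) :=
          b.linearIndependent.map' M.subtype (Submodule.ker_subtype M)
        exact h2.map' ((Algebra.linearMap (𝓞 K) K).restrictScalars ℤ)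
          (LinearMap.ker_eq_bot.2 (RingOfIntegers.coe_injective))
      have h3 : ((W A R).subtype.restrictScalars ℤ) ∘ v = fun i => (((b i : 𝓞 K) : K)) := rfl
      rw [← h3] at h1
      exact h1.of_comp _
    rw [LinearIndependent.iff_fractionRing ℤ ℚ] at hv
    have h4 := hv.fintype_card_le_finrank
    rwa [Fintype.card_fin] at h4
  have : NeZero m := ⟨hm.ne'⟩
  have h1 : ∀ x ∈ balO A R, ∃ y : M, ((y : 𝓞 K) : K) = x := fun x hx =>
    ⟨⟨⟨x, hx.1.1⟩, Submodule.subset_span hx, hx.2⟩, rfl⟩
  choose! f hf using h1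
  let Φ : K → (Fin (finrank ℤ M) → ZMod m) := fun x i => (b.repr (f x) i : ZMod m)
  have hfib : ∀ c : Fin (finrank ℤ M) → ZMod m,
      (((balO_finite A R).toFinset).filter (fun x => Φ x = c)).card ≤ (balO A S).ncard := by
    intro c
    rcases (((balO_finite A R).toFinset).filter (fun x => Φ x = c)).eq_empty_or_nonempty with
      h0 | ⟨y, hy⟩
    · rw [h0, Finset.card_empty]
      exact Nat.zero_le _
    rw [Finset.mem_filter, Set.Finite.mem_toFinset] at hy
    rw [← Set.ncard_coe_finset]
    apply Set.ncard_le_ncard_of_injOn (fun x => (x - y) / m) _ _ (balO_finite A S)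
    · intro x hx
      rw [Finset.mem_coe, Finset.mem_filter, Set.Finite.mem_toFinset] at hx
      have h2 : ∀ i, ((m : ℕ) : ℤ) ∣ b.repr (f x) i - b.repr (f y) i := by
        intro i
        rw [← ZMod.intCast_zmod_eq_zero_iff_dvd, Int.cast_sub]
        exact sub_eq_zero.2 (congrFun (hx.2.trans hy.2.symm) i)
      choose c' hc using h2
      have h3 : f x - f y = (m : ℤ) • ∑ i, c' i • b i := by
        rw [← b.sum_repr (f x - f y), Finset.smul_sum]
        apply Finset.sum_congr rfl
        intro i _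
        rw [map_sub, Finsupp.sub_apply, hc i, mul_smul]
      set z : M := ∑ i, c' i • b i with hz
      have hm0 : (m : K) ≠ 0 := by exact_mod_cast hm.ne'
      have h4 : x - y = (m : K) * ((z : 𝓞 K) : K) := by
        rw [← hf x hx.1, ← hf y hy.1]
        have h5 := congrArg (fun t : M => ((t : 𝓞 K) : K)) h3
        simp only [Submodule.coe_sub, map_sub, Submodule.coe_smul] at h5
        rw [h5]
        simp
      have h5 : (x - y) / m = ((z : 𝓞 K) : K) := by
        rw [h4, mul_div_cancel_left₀ _ hm0]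
      change (x - y) / m ∈ balO A S
      rw [h5]
      refine ⟨⟨(z : 𝓞 K).2, fun φ => ?_⟩, z.2.2⟩
      have h7 : ‖φ (x - y)‖ ≤ R + R := (bal_sub hx.1.1 hy.1.1).2 φ
      rw [h4, map_mul, norm_mul, map_natCast, Complex.norm_natCast] at h7
      have hm0' : (0 : ℝ) < m := by exact_mod_cast hm
      have h8 : (m : ℝ) * ‖φ ((z : 𝓞 K) : K)‖ ≤ m * S := by linarith
      exact le_of_mul_le_mul_left h8 hm0'
    · intro x _ x' _ h
      have hm0 : (m : K) ≠ 0 := by exact_mod_cast hm.ne'
      have h9 : x - y = x' - y := by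
        have h10 : (x - y) / (m : K) = (x' - y) / m := h
        rwa [div_left_inj' hm0] at h10
      exact sub_left_injective h9
  calc (balO A R).ncard = ((balO_finite A R).toFinset).card :=
        Set.ncard_eq_toFinset_card _ (balO_finite A R)
    _ = ∑ c : Fin (finrank ℤ M) → ZMod m,
          (((balO_finite A R).toFinset).filter (fun x => Φ x = c)).card :=
        Finset.card_eq_sum_card_fiberwise (fun _ _ => Finset.mem_univ _)
    _ ≤ ∑ _c : Fin (finrank ℤ M) → ZMod m, (balO A S).ncard :=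
        Finset.sum_le_sum fun c _ => hfib c
    _ = m ^ finrank ℤ M * (balO A S).ncard := by
        rw [Finset.sum_const, Finset.card_univ, Fintype.card_fun, ZMod.card, Fintype.card_fin,
          smul_eq_mul]
    _ ≤ _ := Nat.mul_le_mul_right _ (Nat.pow_le_pow_right hm hr)

/-- Two subspaces whose products do not span. -/
theorem finrank_add_le (V V' : Submodule ℚ K) (h : V * V' ≠ ⊤) :
    finrank ℚ V + finrank ℚ V' ≤ finrank ℚ K := by
  obtain ⟨f, hf, hle⟩ := Submodule.exists_le_ker_of_lt_top _ (lt_top_iff_ne_top.2 h)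
  let B : K →ₗ[ℚ] (K →ₗ[ℚ] ℚ) := (LinearMap.mul ℚ K).compr₂ f
  have hB : ∀ x y, B x y = f (x * y) := fun x y => rfl
  have hinj : Function.Injective B := by
    rw [← LinearMap.ker_eq_bot, LinearMap.ker_eq_bot']
    intro x hx
    by_contra hx0
    apply hf
    ext y
    have h1 := LinearMap.congr_fun hx (x⁻¹ * y)
    rw [hB, mul_inv_cancel_left₀ hx0] at h1
    exact h1
  have h2 : V.map B ≤ V'.dualAnnihilator := by
    rintro _ ⟨x, hx, rfl⟩
    rw [Submodule.mem_dualAnnihilator]
    intro y hy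
    rw [hB]
    exact hle (Submodule.mul_mem_mul hx hy)
  have h4 : finrank ℚ V = finrank ℚ (V.map B) :=
    (Submodule.equivMapOfInjective B hinj V).finrank_eq
  have h5 : finrank ℚ V' + finrank ℚ V'.dualAnnihilator = finrank ℚ K :=
    Subspace.finrank_add_finrank_dualAnnihilator_eq V'
  have h6 : finrank ℚ (V.map B) ≤ finrank ℚ V'.dualAnnihilator := Submodule.finrank_mono h2
  omega

theorem W_mul_le (A : Subring K) {R S : ℝ} (hR : 0 ≤ R) : W A R * W A S ≤ W A (R * S) := by
  unfold W
  rw [Submodule.span_mul_span]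
  apply Submodule.span_mono
  rintro _ ⟨x, hx, y, hy, rfl⟩
  exact ⟨bal_mul hR hx.1 hy.1, A.mul_mem hx.2 hy.2⟩

theorem finrank_W_add_le (A : Subring K) {R S H : ℝ} (hR : 0 ≤ R) (hH : W A H ≠ ⊤)
    (hRS : R * S ≤ H) : finrank ℚ (W A R) + finrank ℚ (W A S) ≤ finrank ℚ K := by
  apply finrank_add_le
  intro h
  apply hH
  rw [eq_top_iff, ← h]
  exact (W_mul_le A hR).trans (W_mono A hRS)

/-- The number of elements of size at most `1`. -/
theorem card_one (A : Subring K) : (balO A 1).ncard ≤ 3 ^ finrank ℚ K := by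
  have h1 := card_bal_le (K := K) ⊤ (R := 1) 3 (by norm_num)
  rw [finrank_top] at h1
  refine le_trans (Set.ncard_le_ncard ?_ ((bal_finite K 1).subset Set.inter_subset_left)) h1
  exact fun x hx => ⟨hx.1, trivial⟩

/-- The `j`-th minimum, cut off at `H`. -/
def mu (A : Subring K) (H : ℝ) (j : ℕ) : ℝ :=
  sInf {R : ℝ | 0 ≤ R ∧ (j < finrank ℚ (W A R) ∨ H ≤ R)}

theorem W_lt_one (A : Subring K) {R : ℝ} (hR : R < 1) : W A R = ⊥ := by
  unfold W
  rw [Submodule.span_eq_bot]
  intro x hx
  exact eq_zero_of_lt_one hx.1.1 (fun φ => lt_of_le_of_lt (hx.1.2 φ) hR)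

theorem card_lt_one (A : Subring K) {R : ℝ} (hR : R < 1) : (balO A R).ncard ≤ 1 := by
  rw [Set.ncard_le_one (balO_finite A R)]
  intro x hx y hy
  rw [eq_zero_of_lt_one hx.1.1 (fun φ => lt_of_le_of_lt (hx.1.2 φ) hR),
    eq_zero_of_lt_one hy.1.1 (fun φ => lt_of_le_of_lt (hy.1.2 φ) hR)]

theorem mu_bdd (A : Subring K) (H : ℝ) (j : ℕ) :
    BddBelow {R : ℝ | 0 ≤ R ∧ (j < finrank ℚ (W A R) ∨ H ≤ R)} := ⟨0, fun _ h => h.1⟩

theorem mu_le (A : Subring K) {H : ℝ} {j : ℕ} {R : ℝ} (hR : 0 ≤ R)
    (h : j < finrank ℚ (W A R)) : mu A H j ≤ R :=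
  csInf_le (mu_bdd A H j) ⟨hR, Or.inl h⟩

theorem mu_le_self (A : Subring K) {H : ℝ} (hH : 1 ≤ H) (j : ℕ) : mu A H j ≤ H :=
  csInf_le (mu_bdd A H j) ⟨by linarith, Or.inr le_rfl⟩

theorem mu_nonempty (A : Subring K) {H : ℝ} (hH : 1 ≤ H) (j : ℕ) :
    {R : ℝ | 0 ≤ R ∧ (j < finrank ℚ (W A R) ∨ H ≤ R)}.Nonempty :=
  ⟨H, by linarith, Or.inr le_rfl⟩

theorem one_le_mu (A : Subring K) {H : ℝ} (hH : 1 ≤ H) (j : ℕ) : 1 ≤ mu A H j := by
  apply le_csInf (mu_nonempty A hH j)
  rintro R ⟨_, h | h⟩
  · by_contra hcon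
    push Not at hcon
    rw [W_lt_one A hcon, finrank_bot] at h
    exact absurd h (Nat.not_lt_zero _)
  · exact hH.trans h

theorem mu_mono (A : Subring K) {H : ℝ} (hH : 1 ≤ H) {i j : ℕ} (hij : i ≤ j) :
    mu A H i ≤ mu A H j := by
  apply csInf_le_csInf (mu_bdd A H i) (mu_nonempty A hH j)
  rintro R ⟨h1, h2 | h2⟩
  · exact ⟨h1, Or.inl (lt_of_le_of_lt hij h2)⟩
  · exact ⟨h1, Or.inr h2⟩

theorem lt_of_mu_lt (A : Subring K) {H : ℝ} (hH : 1 ≤ H) {j : ℕ} {R : ℝ} (h : mu A H j < R)
    (hR : R < H) : j < finrank ℚ (W A R) := by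
  obtain ⟨S, ⟨_, h2 | h2⟩, h3⟩ := exists_lt_of_csInf_lt (mu_nonempty A hH j) h
  · exact lt_of_lt_of_le h2 (Submodule.finrank_mono (W_mono A h3.le))
  · linarith

theorem finrank_le_of_lt_mu (A : Subring K) {H : ℝ} {j : ℕ} {R : ℝ} (hR : 0 ≤ R)
    (h : R < mu A H j) : finrank ℚ (W A R) ≤ j := by
  by_contra hcon
  push Not at hcon
  exact absurd (mu_le A hR hcon) (not_le.2 h)

/-- The count in terms of the minima. -/
theorem card_le_prod (A : Subring K) {H : ℝ} (hH : 1 ≤ H) (j : ℕ) : ∀ R : ℝ, 0 ≤ R → R ≤ H →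
    finrank ℚ (W A R) ≤ j →
      ((balO A R).ncard : ℝ) ≤ 3 ^ (j * (j + 1) / 2) * ∏ i ∈ Finset.range j,
        max 1 (R / mu A H i) := by
  induction j with
  | zero =>
    intro R hR _ hj
    have h0 : finrank ℚ (W A R) = 0 := Nat.le_zero.1 hj
    rw [Submodule.finrank_eq_zero] at h0
    have h1 : (balO A R).ncard ≤ 1 := by
      rw [Set.ncard_le_one (balO_finite A R)]
      have h2 : ∀ x ∈ balO A R, x = 0 := by
        intro x hx
        have h3 : x ∈ W A R := Submodule.subset_span hx
        rw [h0] at h3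
        exact (Submodule.mem_bot ℚ).1 h3
      intro x hx y hy
      rw [h2 x hx, h2 y hy]
    rw [Finset.range_zero, Finset.prod_empty]
    norm_num
    exact h1
  | succ j ih =>
    intro R hR hRH hj
    have hmupos : ∀ i, 0 < mu A H i := fun i => lt_of_lt_of_le one_pos (one_le_mu A hH i)
    have hexp : (j + 1) * (j + 1 + 1) / 2 = j * (j + 1) / 2 + (j + 1) := by
      have : (j + 1) * (j + 1 + 1) = j * (j + 1) + 2 * (j + 1) := by ring
      rw [this]
      omega
    have hprod0 : 0 ≤ ∏ i ∈ Finset.range j, max 1 (R / mu A H i) :=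
      Finset.prod_nonneg fun i _ => le_trans zero_le_one (le_max_left _ _)
    rcases Nat.lt_or_ge j (finrank ℚ (W A R)) with h | h
    · have h1 : mu A H j ≤ R := mu_le A hR h
      have hRpos : 0 < R := lt_of_lt_of_le (hmupos j) h1
      have hq : 1 ≤ R / mu A H j := (one_le_div (hmupos j)).2 h1
      obtain ⟨m, hm1, hm2⟩ := exists_nat hq
      have hmpos' : (0 : ℝ) < m := by linarith
      have hmpos : 0 < m := by exact_mod_cast hmpos'
      set S : ℝ := 2 * R / m with hS
      have hS0 : 0 ≤ S := by positivity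
      have hSm : 2 * R ≤ m * S := by
        rw [hS, mul_div_cancel₀ _ hmpos'.ne']
      have hSlt : S < mu A H j := by
        rw [hS, div_lt_iff₀ hmpos']
        rw [← mul_div_assoc, div_lt_iff₀ (hmupos j)] at hm1
        linarith
      have h2 := scale A m hmpos hSm
      have h3 := ih S hS0 (hSlt.le.trans (mu_le_self A hH j)) (finrank_le_of_lt_mu A hS0 hSlt)
      have h4 : finrank ℚ (W A R) = j + 1 := by omega
      rw [h4] at h2
      have h5 : ((balO A R).ncard : ℝ) ≤ (m : ℝ) ^ (j + 1) * (balO A S).ncard := by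
        exact_mod_cast h2
      have h6 : (m : ℝ) ^ (j + 1) ≤ (3 * (R / mu A H j)) ^ (j + 1) :=
        pow_le_pow_left₀ hmpos'.le hm2 _
      have h7 : (R / mu A H j) ^ j * ∏ i ∈ Finset.range j, max 1 (S / mu A H i) ≤
          ∏ i ∈ Finset.range j, max 1 (R / mu A H i) := by
        have h8 : (R / mu A H j) ^ j = ∏ _i ∈ Finset.range j, (R / mu A H j) := by
          rw [Finset.prod_const, Finset.card_range]
        rw [h8, ← Finset.prod_mul_distrib]
        apply Finset.prod_le_prod
        · intro i _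
          have : 0 ≤ max 1 (S / mu A H i) := le_trans zero_le_one (le_max_left _ _)
          positivity
        · intro i hi
          rw [Finset.mem_range] at hi
          have h9 : mu A H i ≤ mu A H j := mu_mono A hH hi.le
          refine le_trans ?_ (le_max_right _ _)
          rw [mul_max_of_nonneg _ _ (by positivity)]
          apply max_le
          · rw [mul_one]
            exact div_le_div_of_nonneg_left hRpos.le (hmupos i) h9
          · rw [div_mul_div_comm, div_le_div_iff₀ (mul_pos (hmupos j) (hmupos i)) (hmupos i)]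
            have := hmupos i
            have h10 : R * S ≤ R * mu A H j := mul_le_mul_of_nonneg_left hSlt.le hRpos.le
            nlinarith
      rw [hexp, pow_add, Finset.prod_range_succ]
      calc ((balO A R).ncard : ℝ) ≤ (m : ℝ) ^ (j + 1) * (balO A S).ncard := h5
        _ ≤ (3 * (R / mu A H j)) ^ (j + 1) *
            (3 ^ (j * (j + 1) / 2) * ∏ i ∈ Finset.range j, max 1 (S / mu A H i)) :=
            mul_le_mul h6 h3 (Nat.cast_nonneg _) (by positivity)
        _ = 3 ^ (j * (j + 1) / 2) * 3 ^ (j + 1) * (((R / mu A H j) ^ j *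
            ∏ i ∈ Finset.range j, max 1 (S / mu A H i)) * (R / mu A H j)) := by
            rw [mul_pow, pow_succ (R / mu A H j)]
            ring
        _ ≤ 3 ^ (j * (j + 1) / 2) * 3 ^ (j + 1) * ((∏ i ∈ Finset.range j,
            max 1 (R / mu A H i)) * max 1 (R / mu A H j)) := by
            apply mul_le_mul_of_nonneg_left _ (by positivity)
            exact mul_le_mul h7 (le_max_right _ _) (by positivity) hprod0
    · have h1 := ih R hR hRH h
      rw [hexp, pow_add, Finset.prod_range_succ]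
      calc ((balO A R).ncard : ℝ) ≤ 3 ^ (j * (j + 1) / 2) * ∏ i ∈ Finset.range j,
            max 1 (R / mu A H i) := h1
        _ ≤ (3 ^ (j * (j + 1) / 2) * ∏ i ∈ Finset.range j, max 1 (R / mu A H i)) *
            (3 ^ (j + 1) * max 1 (R / mu A H j)) := by
            apply le_mul_of_one_le_right (by positivity)
            have h2 : (1 : ℝ) ≤ 3 ^ (j + 1) := one_le_pow₀ (by norm_num)
            have h3 : (1 : ℝ) ≤ max 1 (R / mu A H j) := le_max_left _ _
            nlinarith
        _ = _ := by ring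

/-- If the small elements do not span, there are few of them. -/
theorem card_of_not_span (A : Subring K) {H : ℝ} (hH : 1 ≤ H) (hW : W A H ≠ ⊤) :
    ((balO A H).ncard : ℝ) ^ 2 ≤ 3 ^ (finrank ℚ K * (finrank ℚ K + 1)) * H ^ finrank ℚ K := by
  set n := finrank ℚ K with hn
  have hH0 : 0 < H := by linarith
  have hmu1 : ∀ i, 1 ≤ mu A H i := fun i => one_le_mu A hH i
  have hmupos : ∀ i, 0 < mu A H i := fun i => lt_of_lt_of_le one_pos (hmu1 i)
  have h1 := card_le_prod A hH n H hH0.le le_rfl (Submodule.finrank_le _)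
  have hpair : ∀ i, i < n → H ≤ mu A H i * mu A H (n - 1 - i) := by
    intro i hi
    by_contra hcon
    push Not at hcon
    have hc : Filter.Tendsto (fun t : ℝ => (mu A H i + t) * (mu A H (n - 1 - i) + t))
        (nhdsWithin 0 (Set.Ioi 0)) (nhds ((mu A H i + 0) * (mu A H (n - 1 - i) + 0))) := by
      apply Filter.Tendsto.mono_left _ nhdsWithin_le_nhds
      exact Continuous.tendsto (by fun_prop) 0
    rw [add_zero, add_zero] at hc
    have he := (hc.eventually (gt_mem_nhds hcon)).and self_mem_nhdsWithin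
    obtain ⟨t, ht1, ht2⟩ := he.exists
    have ht0 : 0 < t := ht2
    set R := mu A H i + t with hR
    set S := mu A H (n - 1 - i) + t with hS
    have hR1 : 1 < R := by have := hmu1 i; linarith
    have hS1 : 1 < S := by have := hmu1 (n - 1 - i); linarith
    have hRH : R < H := by nlinarith
    have hSH : S < H := by nlinarith
    have h2 := lt_of_mu_lt A hH (show mu A H i < R by linarith) hRH
    have h3 := lt_of_mu_lt A hH (show mu A H (n - 1 - i) < S by linarith) hSH
    have h4 := finrank_W_add_le A (by linarith : 0 ≤ R) hW ht1.le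
    omega
  have h2 : (∏ i ∈ Finset.range n, max 1 (H / mu A H i)) ^ 2 ≤ H ^ n := by
    have h3 : ∏ i ∈ Finset.range n, max 1 (H / mu A H i) =
        ∏ i ∈ Finset.range n, max 1 (H / mu A H (n - 1 - i)) :=
      (Finset.prod_range_reflect (fun i => max 1 (H / mu A H i)) n).symm
    rw [sq]
    nth_rewrite 2 [h3]
    rw [← Finset.prod_mul_distrib]
    have h4 : H ^ n = ∏ _i ∈ Finset.range n, H := by
      rw [Finset.prod_const, Finset.card_range]
    rw [h4]
    apply Finset.prod_le_prod
    · intro i _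
      have h5 : 0 ≤ max 1 (H / mu A H i) := le_trans zero_le_one (le_max_left _ _)
      have h6 : 0 ≤ max 1 (H / mu A H (n - 1 - i)) := le_trans zero_le_one (le_max_left _ _)
      positivity
    · intro i hi
      rw [Finset.mem_range] at hi
      have h5 : max 1 (H / mu A H i) = H / mu A H i :=
        max_eq_right ((one_le_div (hmupos i)).2 (mu_le_self A hH i))
      have h6 : max 1 (H / mu A H (n - 1 - i)) = H / mu A H (n - 1 - i) :=
        max_eq_right ((one_le_div (hmupos _)).2 (mu_le_self A hH _))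
      rw [h5, h6, div_mul_div_comm, div_le_iff₀ (mul_pos (hmupos _) (hmupos _))]
      exact mul_le_mul_of_nonneg_left (hpair i hi) hH0.le
  have h0 : 0 ≤ ∏ i ∈ Finset.range n, max 1 (H / mu A H i) :=
    Finset.prod_nonneg fun i _ => le_trans zero_le_one (le_max_left _ _)
  calc ((balO A H).ncard : ℝ) ^ 2 ≤ (3 ^ (n * (n + 1) / 2) *
        ∏ i ∈ Finset.range n, max 1 (H / mu A H i)) ^ 2 :=
        pow_le_pow_left₀ (Nat.cast_nonneg _) h1 2
    _ = 3 ^ (n * (n + 1)) * (∏ i ∈ Finset.range n, max 1 (H / mu A H i)) ^ 2 := by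
        rw [mul_pow, ← pow_mul, Nat.div_mul_cancel (Nat.even_mul_succ_self n).two_dvd]
    _ ≤ 3 ^ (n * (n + 1)) * H ^ n := mul_le_mul_of_nonneg_left h2 (by positivity)

end Pool.Agent.Helper43Frey
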